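import Pool.Agent.W5h22.JM.I

/-! The theorem for measures. -/

set_option autoImplicit false

open Finset Filter Topology MeasureTheory
open Pool.Agent.H378R2 Pool.Agent.H510R2.Maier

namespace Pool.Agent.W5h22.JM

theorem core (u v : ℝ) (hu : 0 < u) (huv : u < v) (hv : v < 1) (hlog : Real.log (v / u) ≤ 1 / 4) (B : ℕ) (ε : ℝ)
    (hε : 0 < ε) : ∀ᶠ X : ℝ in atTop, ∃ s : Finset ℕ, (∀ p ∈ s, p.Prime) ∧
      (∀ p ∈ s, (Real.log X) ^ u < p ∧ (p : ℝ) ≤ (Real.log X) ^ v) ∧ Real.log (v / u) / 2 ≤ ee s 1 ∧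
      ee s 1 ≤ 2 * Real.log (v / u) ∧ 1 / 2 ≤ PP s ∧ 0 < NQ X (∏ p ∈ s, p) ∧
      X / (40 * ((∏ p ∈ s, p : ℕ) : ℝ)) ≤ NQ X (∏ p ∈ s, p) ∧
      ∀ a : ℝ, 1 ≤ a → a ≤ B → |EX X (∏ p ∈ s, p) (fun n => ratio a n) - cX s (Real.log X) a| ≤ ε := by
  have hl0 : 0 < Real.log (v / u) := Real.log_pos (by rw [lt_div_iff₀ hu]; linarith)
  filter_upwards [mean_ratio B ε hε, mertens_sX u v (Real.log (v / u) / 2) hu huv hv (by positivity)] with X h1 h2
  obtain ⟨ps, S, hS, h3⟩ := h1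
  have h4 := abs_le.1 (h2 ps S hS)
  have hsp : ∀ p ∈ sX X ps S u v, p.Prime := by
    intro p hp
    rw [sX, mem_filter, mem_PW] at hp
    exact hp.1.2.1
  have hPP : 1 / 2 ≤ PP (sX X ps S u v) := by
    have h5 := bonf_prod (sX X ps S u v) hsp 1 le_rfl
    rw [sum_range_one, pow_zero, ee_zero] at h5
    have h6 := (abs_le.1 h5).1
    unfold PP
    linarith [h4.2]
  obtain ⟨h7, h9, h8⟩ := h3 (sX X ps S u v) (filter_subset _ _) hPP
  refine ⟨sX X ps S u v, hsp, ?_, by linarith [h4.1], by linarith [h4.2], hPP, h7, h9, h8⟩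
  intro p hp
  rw [sX, mem_filter] at hp
  exact hp.2

theorem Phi_le_one (u : ℝ) : Phi u ≤ 1 := by
  unfold Phi
  apply max_le zero_le_one
  have := abs_nonneg (Real.log u - 1 / 2)
  linarith

theorem nu_le_one (X : ℝ) (W a n : ℕ) : nu X W a n ≤ 1 := by
  unfold nu
  split_ifs
  · exact Phi_le_one _
  · exact zero_le_one

/-- the integers with a large value -/
noncomputable def big (X τ : ℝ) (f : ℕ → ℝ) : Finset ℕ := by
  classical
  exact (Icc 1 ⌊3 * X⌋₊).filter (fun n : ℕ => X < n ∧ (n : ℝ) < 3 * X ∧ τ ≤ f n)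

theorem EX_count (X : ℝ) (hX : 0 < X) (Q : ℕ) (hN : 0 < NQ X Q) (f : ℕ → ℝ) (τ δ M : ℝ)
    (hM : ∀ n : ℕ, X < n → (n : ℝ) < 3 * X → f n - τ ≤ M) (hM0 : 0 < M) (h : τ + δ ≤ EX X Q f) :
    NQ X Q * δ ≤ M * (big X τ f).card := by
  classical
  unfold EX at h
  rw [le_div_iff₀ hN] at h
  have e1 : ∑ n ∈ Icc 1 ⌊3 * X⌋₊, nu X Q 0 n * (f n - τ) ≤ ∑ n ∈ Icc 1 ⌊3 * X⌋₊, if n ∈ big X τ f then M else 0 := by
    refine sum_le_sum fun n hn => ?_
    by_cases hnX : X < n ∧ (n : ℝ) < 3 * X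
    · split_ifs with hb
      · calc nu X Q 0 n * (f n - τ) ≤ nu X Q 0 n * M :=
              mul_le_mul_of_nonneg_left (hM n hnX.1 hnX.2) (nu_nonneg _ _ _ _)
          _ ≤ 1 * M := mul_le_mul_of_nonneg_right (nu_le_one _ _ _ _) hM0.le
          _ = M := one_mul M
      · apply mul_nonpos_of_nonneg_of_nonpos (nu_nonneg _ _ _ _)
        by_contra hcon
        apply hb
        unfold big
        rw [mem_filter]
        exact ⟨hn, hnX.1, hnX.2, by linarith⟩
    · rw [nu_eq_zero hX hnX, zero_mul]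
      split_ifs
      · exact hM0.le
      · exact le_rfl
  have e2 : ∑ n ∈ Icc 1 ⌊3 * X⌋₊, (if n ∈ big X τ f then M else 0) ≤ M * (big X τ f).card := by
    rw [← sum_filter, sum_const, nsmul_eq_mul, mul_comm]
    apply mul_le_mul_of_nonneg_left _ hM0.le
    have : (filter (fun n => n ∈ big X τ f) (Icc 1 ⌊3 * X⌋₊)) ⊆ big X τ f := fun n hn => (mem_filter.1 hn).2
    exact_mod_cast card_le_card this
  have e3 : ∑ n ∈ Icc 1 ⌊3 * X⌋₊, nu X Q 0 n * (f n - τ) = ∑ n ∈ Icc 1 ⌊3 * X⌋₊, nu X Q 0 n * f n - τ * NQ X Q := by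
    unfold NQ
    rw [mul_sum, ← sum_sub_distrib]
    exact sum_congr rfl fun n _ => by ring
  linarith

theorem ratio_meas (x : ℝ) : Measurable fun a : ℝ => ratio a x := by
  unfold ratio
  have h1 : Measurable fun a : ℝ => Real.log x ^ a := measurable_const.pow measurable_id
  have h2 : Measurable fun a : ℝ => ((Nat.primeCounting ⌊x + Real.log x ^ a⌋₊ : ℕ) : ℝ) :=
    (measurable_from_nat (f := fun n : ℕ => ((Nat.primeCounting n : ℕ) : ℝ))).comp
      (Nat.measurable_floor.comp (h1.const_add x))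
  exact (measurable_const.div h1).mul (h2.sub_const _)

theorem ratio_int (n : ℕ) (μ : Measure ℝ) [IsFiniteMeasure μ] : Integrable (fun a => ratio a n) μ := by
  refine Integrable.of_bound (ratio_meas n).aestronglyMeasurable (Real.log n) (Eventually.of_forall fun a => ?_)
  obtain ⟨h1, h2⟩ := ratio_bd a n
  rw [Real.norm_eq_abs, abs_of_nonneg h1]
  exact h2

theorem EX_int (X : ℝ) (Q : ℕ) (μ : Measure ℝ) [IsFiniteMeasure μ] :
    EX X Q (fun n => ∫ a, ratio a n ∂μ) = ∫ a, EX X Q (fun n => ratio a n) ∂μ ∧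
    Integrable (fun a => EX X Q (fun n => ratio a n)) μ := by
  have h1 : ∀ n ∈ Icc 1 ⌊3 * X⌋₊, Integrable (fun a => nu X Q 0 n * ratio a n) μ :=
    fun n _ => (ratio_int n μ).const_mul _
  constructor
  · unfold EX
    rw [integral_div, integral_finsetSum _ h1]
    congr 1
    refine sum_congr rfl fun n _ => ?_
    rw [integral_const_mul]
  · unfold EX
    exact (integrable_finsetSum _ h1).div_const _

theorem EX_sub (X : ℝ) (Q : ℕ) (f g : ℕ → ℝ) : EX X Q (fun n => f n - g n) = EX X Q f - EX X Q g := by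
  unfold EX
  rw [← sub_div, ← sum_sub_distrib]
  congr 1
  exact sum_congr rfl fun n _ => by ring

theorem ev_cnt (v ε C : ℝ) (hv : 0 < v) (hvε : v < ε) (hC : 0 < C) : ∀ᶠ X : ℝ in atTop,
    C * (Real.log (3 * X) + 1) * Real.exp (2 * (Real.log X) ^ v) ≤ Real.exp ((Real.log X) ^ ε) := by
  have hε : 0 < ε := by linarith
  have e1 : ∀ᶠ L : ℝ in atTop, Real.log L ≤ 1 / 4 * L ^ ε := by
    filter_upwards [(isLittleO_log_rpow_atTop hε).bound (show (0 : ℝ) < 1 / 4 by norm_num), eventually_ge_atTop (1 : ℝ)] with L h1 h2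
    rw [Real.norm_of_nonneg (Real.log_nonneg h2), Real.norm_of_nonneg (Real.rpow_nonneg (by linarith) _)] at h1
    exact h1
  have e2 : ∀ᶠ L : ℝ in atTop, 4 ≤ L ^ (ε - v) := (tendsto_rpow_atTop (by linarith)).eventually_ge_atTop _
  have e3 : ∀ᶠ L : ℝ in atTop, 4 * C + 4 ≤ L := eventually_ge_atTop _
  filter_upwards [Real.tendsto_log_atTop.eventually e1, Real.tendsto_log_atTop.eventually e2,
    Real.tendsto_log_atTop.eventually e3, eventually_gt_atTop (0 : ℝ)] with X h1 h2 h3 h4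
  set L := Real.log X with hL
  have hL0 : 0 < L := by linarith
  have h5 : Real.log (3 * X) + 1 ≤ L + 3 := by
    rw [Real.log_mul (by norm_num) h4.ne']
    have : Real.log 3 ≤ 2 := by
      rw [Real.log_le_iff_le_exp (by norm_num)]
      have := Real.add_one_le_exp 2
      linarith
    linarith
  have h6 : C * (Real.log (3 * X) + 1) ≤ Real.exp (L ^ ε / 2) := by
    calc C * (Real.log (3 * X) + 1) ≤ C * (L + 3) := mul_le_mul_of_nonneg_left h5 hC.le
      _ ≤ L ^ 2 := by nlinarith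
      _ = Real.exp (2 * Real.log L) := by
          rw [mul_comm, Real.exp_mul, Real.exp_log hL0]
          norm_num
      _ ≤ _ := Real.exp_le_exp.2 (by linarith)
  have h7 : 2 * L ^ v ≤ L ^ ε / 2 := by
    have h8 : L ^ ε = L ^ (ε - v) * L ^ v := by rw [← Real.rpow_add hL0]; congr 1; ring
    have h9 : 0 < L ^ v := Real.rpow_pos_of_pos hL0 v
    rw [h8]
    nlinarith
  have hlog3 : 0 ≤ Real.log (3 * X) + 1 := by
    have : Real.log X ≤ Real.log (3 * X) := Real.log_le_log h4 (by linarith)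
    linarith
  calc C * (Real.log (3 * X) + 1) * Real.exp (2 * L ^ v) ≤ Real.exp (L ^ ε / 2) * Real.exp (L ^ ε / 2) := by
        apply mul_le_mul h6 (Real.exp_le_exp.2 h7) (Real.exp_pos _).le (Real.exp_pos _).le
    _ = Real.exp (L ^ ε) := by rw [← Real.exp_add]; congr 1; ring

theorem Q_le (s : Finset ℕ) (hs : ∀ p ∈ s, p.Prime) (m : ℝ) (hm : 0 ≤ m) (h : ∀ p ∈ s, (p : ℝ) ≤ m) :
    ((∏ p ∈ s, p : ℕ) : ℝ) ≤ Real.exp (2 * m) := by
  have h1 : ∏ p ∈ s, p ≤ primorial ⌊m⌋₊ := by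
    unfold primorial
    apply Finset.prod_le_prod_of_subset_of_one_le'
    · intro p hp
      rw [Finset.mem_filter, Finset.mem_range]
      exact ⟨by have := Nat.le_floor (h p hp); omega, hs p hp⟩
    · intro p hp _
      exact (Finset.mem_filter.1 hp).2.one_lt.le
  have h2 : primorial ⌊m⌋₊ ≤ 4 ^ ⌊m⌋₊ := primorial_le_four_pow _
  calc ((∏ p ∈ s, p : ℕ) : ℝ) ≤ ((4 ^ ⌊m⌋₊ : ℕ) : ℝ) := by exact_mod_cast h1.trans h2
    _ = Real.exp (Real.log 4 * ⌊m⌋₊) := by
        push_cast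
        rw [Real.exp_mul, Real.exp_log (by norm_num), Real.rpow_natCast]
    _ ≤ _ := by
        apply Real.exp_le_exp.2
        have h4 : Real.log 4 ≤ 2 := by
          have : Real.log 4 = 2 * Real.log 2 := by
            rw [show (4 : ℝ) = 2 ^ 2 by norm_num, Real.log_pow]; norm_num
          rw [this]
          have := Real.log_two_lt_d9
          linarith
        have h5 : 0 ≤ Real.log 4 := Real.log_nonneg (by norm_num)
        have h6 := Nat.floor_le hm
        have h7 : (0 : ℝ) ≤ ⌊m⌋₊ := Nat.cast_nonneg _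
        nlinarith

/-- **the theorem for measures** -/
theorem meas_main (A B : ℝ) (hA : 1 < A) (μ ν : Measure ℝ) [IsFiniteMeasure μ] [IsFiniteMeasure ν]
    (hμ : μ (Set.Icc A B)ᶜ = 0) (hν : ν (Set.Icc A B)ᶜ = 0) (hne : μ ≠ ν) (ε0 : ℝ) (hε0 : 0 < ε0) :
    ∃ δ : ℝ, 0 < δ ∧ ∀ᶠ X : ℝ in atTop, X * Real.exp (-(Real.log X) ^ ε0) ≤
      ((big X (μ.real Set.univ - ν.real Set.univ + δ) (fun n => ∫ a, ratio a n ∂μ - ∫ a, ratio a n ∂ν)).card : ℝ) := by
  have hsub : Set.Iio A ⊆ (Set.Icc A B)ᶜ := by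
    intro x hx h
    exact absurd h.1 (not_le.2 hx)
  obtain ⟨u, v, δ, hu, huv, hv, hvε, hδ, hlog, hmodel⟩ := model μ ν A hA (measure_mono_null hsub hμ)
    (measure_mono_null hsub hν) hne ε0 hε0
  set σ := μ.real Set.univ + ν.real Set.univ with hσ
  have hσ0 : 0 ≤ σ := by positivity
  set B' : ℕ := ⌈B⌉₊ with hB'
  have hBB : B ≤ B' := Nat.le_ceil B
  set ε := δ / (2 * (σ + 1)) with hε
  have hε0 : 0 < ε := by positivity
  have hεσ : ε * σ ≤ δ / 2 := by
    calc ε * σ ≤ ε * (σ + 1) := mul_le_mul_of_nonneg_left (by linarith) hε0.le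
      _ = δ / 2 := by rw [hε]; field_simp
  refine ⟨δ / 4, by positivity, ?_⟩
  filter_upwards [core u v hu huv hv hlog B' ε hε0, Real.tendsto_log_atTop.eventually hmodel,
    eventually_gt_atTop (1 : ℝ), ev_cnt v ε0 (160 * (σ + 1) / δ) (by linarith) hvε (by positivity)] with X hcore hmod hX hcntX
  obtain ⟨s, hsp, hsr, hs1, hs2, hPP, hN, hN40, hmean⟩ := hcore
  have hm := hmod s hsp hsr hs1 hs2
  have hX0 : 0 < X := by linarith
  have hL : 0 < Real.log X := Real.log_pos hX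
  have hlog3 : Real.log X ≤ Real.log (3 * X) := Real.log_le_log hX0 (by linarith)
  have hμ0 : 0 ≤ μ.real Set.univ := measureReal_nonneg
  have hν0 : 0 ≤ ν.real Set.univ := measureReal_nonneg
  have hae : ∀ ρ : Measure ℝ, ρ (Set.Icc A B)ᶜ = 0 → ∀ᵐ a : ℝ ∂ρ, 1 ≤ a ∧ a ≤ (B' : ℝ) := by
    intro ρ hρ
    have h1 : ∀ᵐ a ∂ρ, a ∈ Set.Icc A B := by
      rw [ae_iff]
      exact hρ
    filter_upwards [h1] with a ha
    exact ⟨by linarith [ha.1], ha.2.trans hBB⟩
  have e1 : ∫ a, cX s (Real.log X) a ∂μ - ε * μ.real Set.univ ≤ ∫ a, EX X (∏ p ∈ s, p) (fun n => ratio a n) ∂μ := by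
    have h1 : ∫ a, (cX s (Real.log X) a - ε) ∂μ = ∫ a, cX s (Real.log X) a ∂μ - ε * μ.real Set.univ := by
      rw [integral_sub (cX_int s hsp _ hL μ) (integrable_const ε), integral_const, smul_eq_mul, mul_comm]
    rw [← h1]
    apply integral_mono_ae ((cX_int s hsp _ hL μ).sub (integrable_const ε)) (EX_int X _ μ).2
    filter_upwards [hae μ hμ] with a ha
    have := (abs_le.1 (hmean a ha.1 ha.2)).1
    show cX s (Real.log X) a - ε ≤ _
    linarith
  have e2 : ∫ a, EX X (∏ p ∈ s, p) (fun n => ratio a n) ∂ν ≤ ∫ a, cX s (Real.log X) a ∂ν + ε * ν.real Set.univ := by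
    have h1 : ∫ a, (cX s (Real.log X) a + ε) ∂ν = ∫ a, cX s (Real.log X) a ∂ν + ε * ν.real Set.univ := by
      rw [integral_add (cX_int s hsp _ hL ν) (integrable_const ε), integral_const, smul_eq_mul, mul_comm (ν.real _)]
    rw [← h1]
    apply integral_mono_ae (EX_int X _ ν).2 ((cX_int s hsp _ hL ν).add (integrable_const ε))
    filter_upwards [hae ν hν] with a ha
    have := (abs_le.1 (hmean a ha.1 ha.2)).2
    show _ ≤ cX s (Real.log X) a + ε
    linarith
  have e3 : ε * σ = ε * μ.real Set.univ + ε * ν.real Set.univ := by rw [hσ]; ring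
  have e4 : μ.real Set.univ - ν.real Set.univ + δ / 4 + δ / 4 ≤
      EX X (∏ p ∈ s, p) (fun n => ∫ a, ratio a n ∂μ - ∫ a, ratio a n ∂ν) := by
    rw [EX_sub, (EX_int X _ μ).1, (EX_int X _ ν).1]
    linarith
  have hcount := EX_count X hX0 (∏ p ∈ s, p) hN (fun n => ∫ a, ratio a n ∂μ - ∫ a, ratio a n ∂ν)
    (μ.real Set.univ - ν.real Set.univ + δ / 4) (δ / 4) ((σ + 1) * (Real.log (3 * X) + 1)) (by
      intro n hn hn3
      have hn0 : (0 : ℝ) < n := by linarith
      have f1 : ∫ a, ratio a n ∂μ ≤ Real.log (3 * X) * μ.real Set.univ := by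
        have h1 : ∫ a, ratio a n ∂μ ≤ ∫ _a, Real.log n ∂μ :=
          integral_mono (ratio_int n μ) (integrable_const _) fun a => (ratio_bd a n).2
        rw [integral_const, smul_eq_mul, mul_comm] at h1
        exact h1.trans (mul_le_mul_of_nonneg_right (Real.log_le_log hn0 hn3.le) hμ0)
      have f2 : 0 ≤ ∫ a, ratio a n ∂ν := integral_nonneg fun a => (ratio_bd a n).1
      have f3 : Real.log (3 * X) * μ.real Set.univ ≤ Real.log (3 * X) * σ :=
        mul_le_mul_of_nonneg_left (by linarith) (by linarith)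
      have f4 : (σ + 1) * (Real.log (3 * X) + 1) = Real.log (3 * X) * σ + σ + Real.log (3 * X) + 1 := by ring
      rw [f4]
      linarith) (mul_pos (by linarith) (by linarith)) e4
  -- the final count
  set b := ((big X (μ.real Set.univ - ν.real Set.univ + δ / 4) (fun n => ∫ a, ratio a n ∂μ - ∫ a, ratio a n ∂ν)).card : ℝ) with hb
  have hQ0 : (0 : ℝ) < ((∏ p ∈ s, p : ℕ) : ℝ) := by exact_mod_cast prod_ne s hsp (Subset.refl s)
  have hQ := Q_le s hsp ((Real.log X) ^ v) (Real.rpow_nonneg hL.le v) fun p hp => (hsr p hp).2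
  have g1 : X / (40 * Real.exp (2 * (Real.log X) ^ v)) ≤ NQ X (∏ p ∈ s, p) := by
    refine le_trans ?_ hN40
    gcongr
  have g2 : X / (40 * Real.exp (2 * (Real.log X) ^ v)) * (δ / 4) ≤ (σ + 1) * (Real.log (3 * X) + 1) * b :=
    (mul_le_mul_of_nonneg_right g1 (by positivity)).trans hcount
  have g3 : X * (δ / 4) ≤ (σ + 1) * (Real.log (3 * X) + 1) * b * (40 * Real.exp (2 * (Real.log X) ^ v)) := by
    have : X / (40 * Real.exp (2 * (Real.log X) ^ v)) * (δ / 4) * (40 * Real.exp (2 * (Real.log X) ^ v)) = X * (δ / 4) := by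
      field_simp
    rw [← this]
    exact mul_le_mul_of_nonneg_right g2 (by positivity)
  have g4 : X ≤ b * (160 * (σ + 1) / δ * (Real.log (3 * X) + 1) * Real.exp (2 * (Real.log X) ^ v)) := by
    have h1 : b * (160 * (σ + 1) / δ * (Real.log (3 * X) + 1) * Real.exp (2 * (Real.log X) ^ v)) =
        (σ + 1) * (Real.log (3 * X) + 1) * b * (40 * Real.exp (2 * (Real.log X) ^ v)) / (δ / 4) := by
      field_simp
      ring
    rw [h1, le_div_iff₀ (by positivity)]
    exact g3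
  have hb0 : 0 ≤ b := Nat.cast_nonneg _
  have g5 := g4.trans (mul_le_mul_of_nonneg_left hcntX hb0)
  rw [Real.exp_neg, ← div_eq_mul_inv, div_le_iff₀ (Real.exp_pos _)]
  exact g5

end Pool.Agent.W5h22.JM
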