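import Pool.Agent.W5h22.JM.K

/-! The convex hull of the vectors `(R_{a_1}(x), ..., R_{a_m}(x))`. -/

set_option autoImplicit false

open Finset Filter Topology MeasureTheory
open Pool.Agent.H378R2 Pool.Agent.H510R2.Maier

namespace Pool.Agent.W5h22.JM

/-- finite combinations of point masses -/
noncomputable def dm {m : ℕ} (a c : Fin m → ℝ) : Measure ℝ := ∑ i, ENNReal.ofReal (c i) • Measure.dirac (a i)

instance {m : ℕ} (a c : Fin m → ℝ) : IsFiniteMeasure (dm a c) := by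
  constructor
  unfold dm
  rw [Measure.coe_finsetSum, Finset.sum_apply]
  apply ENNReal.sum_lt_top.2
  intro i _
  rw [Measure.smul_apply, smul_eq_mul]
  exact ENNReal.mul_lt_top ENNReal.ofReal_lt_top (measure_lt_top _ _)

theorem dm_int {m : ℕ} (a c : Fin m → ℝ) (hc : ∀ i, 0 ≤ c i) (f : ℝ → ℝ) : ∫ x, f x ∂(dm a c) = ∑ i, c i * f (a i) := by
  unfold dm
  rw [integral_finsetSum_measure]
  · refine sum_congr rfl fun i _ => ?_
    rw [integral_smul_measure, integral_dirac, ENNReal.toReal_ofReal (hc i), smul_eq_mul]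
  · intro i _
    apply Integrable.smul_measure _ ENNReal.ofReal_ne_top
    exact integrable_dirac (by simp)

theorem dm_univ {m : ℕ} (a c : Fin m → ℝ) (hc : ∀ i, 0 ≤ c i) : (dm a c).real Set.univ = ∑ i, c i := by
  have h := dm_int a c hc (fun _ => 1)
  rw [integral_const] at h
  simpa using h

/-- the model theorem for finite combinations -/
theorem model_fin {m : ℕ} (a : Fin m → ℝ) (ha : ∀ i, 1 < a i) (hinj : Function.Injective a) (α : Fin m → ℝ)
    (hα : ∃ i, α i ≠ 0) :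
    ∃ u v δ : ℝ, 0 < u ∧ u < v ∧ v < 1 ∧ 0 < δ ∧ Real.log (v / u) ≤ 1 / 4 ∧
      ∀ᶠ L : ℝ in atTop, ∀ s : Finset ℕ, (∀ p ∈ s, p.Prime) →
        (∀ p ∈ s, L ^ u < p ∧ (p : ℝ) ≤ L ^ v) → Real.log (v / u) / 2 ≤ ee s 1 → ee s 1 ≤ 2 * Real.log (v / u) →
        ∑ i, α i + δ ≤ ∑ i, α i * cX s L (a i) := by
  classical
  obtain ⟨i0, hi0⟩ := hα
  -- a lower bound for the exponents
  obtain ⟨A, hA1, hA⟩ : ∃ A : ℝ, 1 < A ∧ ∀ i, A ≤ a i := by
    obtain ⟨j, _, hj⟩ := Finset.exists_min_image (univ : Finset (Fin m)) a ⟨i0, mem_univ _⟩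
    exact ⟨a j, ha j, fun i => hj i (mem_univ _)⟩
  set cp : Fin m → ℝ := fun i => max (α i) 0 with hcp
  set cn : Fin m → ℝ := fun i => max (-α i) 0 with hcn
  have hcp0 : ∀ i, 0 ≤ cp i := fun i => le_max_right _ _
  have hcn0 : ∀ i, 0 ≤ cn i := fun i => le_max_right _ _
  have hdiff : ∀ i, cp i - cn i = α i := by
    intro i
    simp only [hcp, hcn]
    rcases le_total 0 (α i) with h | h
    · rw [max_eq_left h, max_eq_right (by linarith)]; ring
    · rw [max_eq_right h, max_eq_left (by linarith)]; ring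
  have hnull : ∀ c : Fin m → ℝ, dm a c (Set.Iio A) = 0 := by
    intro c
    unfold dm
    rw [Measure.coe_finsetSum, Finset.sum_apply]
    apply sum_eq_zero
    intro i _
    rw [Measure.smul_apply, Measure.dirac_apply' _ measurableSet_Iio, Set.indicator_of_notMem, smul_zero]
    exact fun h => absurd (hA i) (not_le.2 h)
  have hne : dm a cp ≠ dm a cn := by
    intro h
    have h1 := congrArg (fun ρ : Measure ℝ => ∫ x, (if x = a i0 then (1 : ℝ) else 0) ∂ρ) h
    rw [dm_int a cp hcp0, dm_int a cn hcn0] at h1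
    have h2 : ∀ c : Fin m → ℝ, ∑ i, c i * (if a i = a i0 then (1 : ℝ) else 0) = c i0 := by
      intro c
      rw [Finset.sum_eq_single i0]
      · simp
      · intro j _ hj
        rw [if_neg (fun h3 => hj (hinj h3)), mul_zero]
      · intro h3; exact absurd (mem_univ _) h3
    rw [h2, h2] at h1
    have h3 := hdiff i0
    apply hi0
    linarith
  obtain ⟨u, v, δ, hu, huv, hv, _, hδ, hlog, hmod⟩ := model (dm a cp) (dm a cn) A hA1 (hnull cp) (hnull cn) hne 1 one_pos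
  refine ⟨u, v, δ, hu, huv, hv, hδ, hlog, ?_⟩
  filter_upwards [hmod] with L hL s h1 h2 h3 h4
  have h5 := hL s h1 h2 h3 h4
  rw [dm_int a cp hcp0, dm_int a cn hcn0, dm_univ a cp hcp0, dm_univ a cn hcn0, ← sum_sub_distrib, ← sum_sub_distrib] at h5
  simp only [← sub_mul, hdiff] at h5
  exact h5

/-- means are points of the convex hull -/
theorem hull_pt {m : ℕ} (a : Fin m → ℝ) (X : ℝ) (hX : 0 < X) (Q : ℕ) (hN : 0 < NQ X Q) :
    (fun i => EX X Q (fun n => ratio (a i) n)) ∈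
      convexHull ℝ {r : Fin m → ℝ | ∃ n : ℕ, X < n ∧ (n : ℝ) < 3 * X ∧ r = fun i => ratio (a i) n} := by
  classical
  set T := (Icc 1 ⌊3 * X⌋₊).filter (fun n : ℕ => X < n ∧ (n : ℝ) < 3 * X) with hT
  have hres : ∀ f : ℕ → ℝ, ∑ n ∈ Icc 1 ⌊3 * X⌋₊, nu X Q 0 n * f n = ∑ n ∈ T, nu X Q 0 n * f n := by
    intro f
    rw [hT, sum_filter]
    refine sum_congr rfl fun n _ => ?_
    split_ifs with h
    · rfl
    · rw [nu_eq_zero hX h, zero_mul]
  have hNT : NQ X Q = ∑ n ∈ T, nu X Q 0 n := by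
    have := hres (fun _ => 1)
    simpa [NQ] using this
  have h1 : (fun i => EX X Q (fun n => ratio (a i) n)) =
      ∑ n ∈ T, (nu X Q 0 n / NQ X Q) • (fun i => ratio (a i) n : Fin m → ℝ) := by
    ext i
    rw [Finset.sum_apply]
    simp only [Pi.smul_apply, smul_eq_mul]
    unfold EX
    rw [hres, sum_div]
    exact sum_congr rfl fun n _ => by ring
  rw [h1]
  apply (convex_convexHull ℝ _).sum_mem
  · intro n _
    exact div_nonneg (nu_nonneg _ _ _ _) hN.le
  · rw [← sum_div, ← hNT, div_self hN.ne']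
  · intro n hn
    rw [hT, mem_filter] at hn
    exact subset_convexHull ℝ _ ⟨n, hn.2.1, hn.2.2, rfl⟩

/-- **the theorem for the convex hull** -/
theorem hull_main {m : ℕ} (a : Fin m → ℝ) (ha : ∀ i, 1 < a i) (hinj : Function.Injective a) :
    ∃ ρ : ℝ, 0 < ρ ∧ ∀ᶠ X : ℝ in atTop, ∀ v : Fin m → ℝ, (∀ i, |v i - 1| ≤ ρ) →
      v ∈ convexHull ℝ {r : Fin m → ℝ | ∃ n : ℕ, X < n ∧ (n : ℝ) < 3 * X ∧ r = fun i => ratio (a i) n} := by
  classical
  obtain ⟨B, hB⟩ : ∃ B : ℕ, ∀ i, a i ≤ B := by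
    obtain ⟨M, hM⟩ := (Set.finite_range a).bddAbove
    exact ⟨⌈M⌉₊, fun i => (hM (Set.mem_range_self i)).trans (Nat.le_ceil M)⟩
  set K : Set (Fin m → ℝ) := {α | ∑ i, |α i| = 1} with hK
  have hKne : ∀ α ∈ K, ∃ i, α i ≠ 0 := by
    intro α hα
    by_contra hcon
    push Not at hcon
    have : ∑ i, |α i| = 0 := sum_eq_zero fun i _ => by rw [hcon i, abs_zero]
    rw [hK, Set.mem_ofPred_eq, this] at hα
    exact zero_ne_one hα
  have hKc : IsCompact K := by
    apply Metric.isCompact_of_isClosed_isBounded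
    · exact isClosed_eq (by fun_prop) continuous_const
    · rw [isBounded_iff_forall_norm_le]
      refine ⟨1, fun α hα => ?_⟩
      rw [pi_norm_le_iff_of_nonneg zero_le_one]
      intro i
      rw [Real.norm_eq_abs]
      have h1 := Finset.single_le_sum (f := fun i => |α i|) (fun i _ => abs_nonneg _) (mem_univ i)
      have h2 : ∑ i, |α i| = 1 := hα
      rw [h2] at h1
      exact h1
  choose! u v δ hu huv hv hδ hlog hmod using fun α (hα : α ∈ K) => model_fin a ha hinj α (hKne α hα)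
  set U : (Fin m → ℝ) → Set (Fin m → ℝ) := fun α => {β | ∑ i, |β i - α i| < δ α / 2} with hU
  obtain ⟨t, htK, htU⟩ := hKc.elim_nhds_subcover U (fun α hα => by
    apply IsOpen.mem_nhds
    · exact isOpen_lt (by fun_prop) continuous_const
    · show ∑ i, |α i - α i| < δ α / 2
      simp only [sub_self, abs_zero, sum_const_zero]
      have := hδ α hα
      linarith)
  obtain ⟨δ0, hδ0, hδt⟩ : ∃ δ0 : ℝ, 0 < δ0 ∧ ∀ α ∈ t, δ0 ≤ δ α / 2 := by
    rcases t.eq_empty_or_nonempty with h | h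
    · exact ⟨1, one_pos, fun α hα => by rw [h] at hα; simp at hα⟩
    · obtain ⟨β, hβ, hβm⟩ := Finset.exists_min_image t (fun α => δ α / 2) h
      exact ⟨δ β / 2, by have := hδ β (htK β hβ); linarith, hβm⟩
  refine ⟨δ0 / 2, by positivity, ?_⟩
  have hcore : ∀ᶠ X : ℝ in atTop, ∀ α ∈ t, ∃ s : Finset ℕ, (∀ p ∈ s, p.Prime) ∧
      (∀ p ∈ s, (Real.log X) ^ (u α) < p ∧ (p : ℝ) ≤ (Real.log X) ^ (v α)) ∧ Real.log (v α / u α) / 2 ≤ ee s 1 ∧
      ee s 1 ≤ 2 * Real.log (v α / u α) ∧ 1 / 2 ≤ PP s ∧ 0 < NQ X (∏ p ∈ s, p) ∧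
      X / (40 * ((∏ p ∈ s, p : ℕ) : ℝ)) ≤ NQ X (∏ p ∈ s, p) ∧
      ∀ b : ℝ, 1 ≤ b → b ≤ B → |EX X (∏ p ∈ s, p) (fun n => ratio b n) - cX s (Real.log X) b| ≤ δ0 / 4 := by
    rw [Filter.eventually_all_finset]
    intro α hα
    have hαK := htK α hα
    exact core (u α) (v α) (hu α hαK) (huv α hαK) (hv α hαK) (hlog α hαK) B (δ0 / 4) (by positivity)
  have hmodt : ∀ᶠ L : ℝ in atTop, ∀ α ∈ t, ∀ s : Finset ℕ, (∀ p ∈ s, p.Prime) →
        (∀ p ∈ s, L ^ (u α) < p ∧ (p : ℝ) ≤ L ^ (v α)) → Real.log (v α / u α) / 2 ≤ ee s 1 →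
        ee s 1 ≤ 2 * Real.log (v α / u α) → ∑ i, α i + δ α ≤ ∑ i, α i * cX s L (a i) := by
    rw [Filter.eventually_all_finset]
    intro α hα
    exact hmod α (htK α hα)
  filter_upwards [hcore, Real.tendsto_log_atTop.eventually hmodt, eventually_gt_atTop (1 : ℝ)] with X hc hm hX w hw
  have hX0 : 0 < X := by linarith
  have hL : 0 < Real.log X := Real.log_pos hX
  set H := convexHull ℝ {r : Fin m → ℝ | ∃ n : ℕ, X < n ∧ (n : ℝ) < 3 * X ∧ r = fun i => ratio (a i) n} with hH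
  by_contra hwH
  have hfin : {r : Fin m → ℝ | ∃ n : ℕ, X < n ∧ (n : ℝ) < 3 * X ∧ r = fun i => ratio (a i) n}.Finite := by
    apply ((Set.finite_Iic ⌊3 * X⌋₊).image (fun n : ℕ => (fun i => ratio (a i) n : Fin m → ℝ))).subset
    rintro r ⟨n, _, h2, rfl⟩
    exact ⟨n, Nat.le_floor h2.le, rfl⟩
  have hclosed : IsClosed H := hfin.isClosed_convexHull (𝕜 := ℝ)
  obtain ⟨f, c, hf1, hf2⟩ := geometric_hahn_banach_closed_point (convex_convexHull ℝ _) hclosed hwH
  -- a point of the hull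
  have hpt : ∃ r, r ∈ H := by
    refine ⟨fun i => ratio (a i) ((⌊X⌋₊ + 1 : ℕ) : ℝ), subset_convexHull ℝ _ ⟨⌊X⌋₊ + 1, ?_, ?_, rfl⟩⟩
    · have := Nat.lt_floor_add_one X
      push_cast; linarith
    · have := Nat.floor_le hX0.le
      push_cast; linarith
  set β : Fin m → ℝ := fun i => f (Pi.single i 1) with hβ
  have hfβ : ∀ x : Fin m → ℝ, f x = ∑ i, x i * β i := by
    intro x
    have h1 : x = ∑ i, x i • (Pi.single i (1 : ℝ) : Fin m → ℝ) := by
      ext j
      rw [Finset.sum_apply]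
      simp [Pi.single_apply]
    conv_lhs => rw [h1]
    rw [map_sum]
    refine sum_congr rfl fun i _ => ?_
    rw [map_smul, smul_eq_mul]
  set S1 := ∑ i, |β i| with hS1
  have hS0 : 0 < S1 := by
    rcases (sum_nonneg fun i _ => abs_nonneg (β i) : 0 ≤ ∑ i, |β i|).lt_or_eq with h | h
    · exact h
    · exfalso
      have h1 : ∀ i, β i = 0 := by
        intro i
        have h2 := (Finset.sum_eq_zero_iff_of_nonneg (fun i _ => abs_nonneg (β i))).1 h.symm i (mem_univ i)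
        exact abs_eq_zero.1 h2
      have h3 : ∀ x : Fin m → ℝ, f x = 0 := by
        intro x
        rw [hfβ]
        exact sum_eq_zero fun i _ => by rw [h1 i, mul_zero]
      obtain ⟨r, hr⟩ := hpt
      have h4 := hf1 r hr
      rw [h3] at h4 hf2
      linarith
  set γ : Fin m → ℝ := fun i => β i / S1 with hγ
  have hγK : γ ∈ K := by
    show ∑ i, |γ i| = 1
    simp only [hγ, abs_div, abs_of_pos hS0]
    rw [← sum_div, ← hS1, div_self hS0.ne']
  have hγf : ∀ x : Fin m → ℝ, ∑ i, γ i * x i = f x / S1 := by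
    intro x
    rw [hfβ, sum_div]
    exact sum_congr rfl fun i _ => by simp only [hγ]; ring
  have hγH : ∀ r ∈ H, ∑ i, γ i * r i < ∑ i, γ i * w i := by
    intro r hr
    rw [hγf, hγf]
    exact div_lt_div_of_pos_right ((hf1 r hr).trans hf2) hS0
  obtain ⟨α, hα, hαU⟩ := Set.mem_iUnion₂.1 (htU hγK)
  have hαU' : ∑ i, |γ i - α i| < δ α / 2 := hαU
  obtain ⟨s, hsp, hsr, hs1, hs2, hPP, hN, _, hmean⟩ := hc α hα
  have h1 := hm α hα s hsp hsr hs1 hs2
  have h2 := hγH _ (hull_pt a X hX0 (∏ p ∈ s, p) hN)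
  -- compare the three sums
  have h3 : ∑ i, γ i * w i ≤ ∑ i, γ i + δ0 / 2 := by
    have e1 : ∑ i, γ i * w i - ∑ i, γ i = ∑ i, γ i * (w i - 1) := by
      rw [← sum_sub_distrib]; exact sum_congr rfl fun i _ => by ring
    have e2 : ∑ i, γ i * (w i - 1) ≤ ∑ i, |γ i| * (δ0 / 2) := by
      refine sum_le_sum fun i _ => ?_
      calc γ i * (w i - 1) ≤ |γ i * (w i - 1)| := le_abs_self _
        _ = |γ i| * |w i - 1| := abs_mul _ _
        _ ≤ _ := mul_le_mul_of_nonneg_left (hw i) (abs_nonneg _)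
    have e3 : ∑ i, |γ i| = 1 := hγK
    rw [← sum_mul, e3, one_mul] at e2
    linarith
  have h4 : ∑ i, γ i * cX s (Real.log X) (a i) - δ0 / 4 ≤ ∑ i, γ i * EX X (∏ p ∈ s, p) (fun n => ratio (a i) n) := by
    have e1 : ∑ i, γ i * cX s (Real.log X) (a i) - ∑ i, γ i * EX X (∏ p ∈ s, p) (fun n => ratio (a i) n) ≤
        ∑ i, |γ i| * (δ0 / 4) := by
      rw [← sum_sub_distrib]
      refine sum_le_sum fun i _ => ?_
      calc γ i * cX s (Real.log X) (a i) - γ i * EX X (∏ p ∈ s, p) (fun n => ratio (a i) n)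
          = γ i * (-(EX X (∏ p ∈ s, p) (fun n => ratio (a i) n) - cX s (Real.log X) (a i))) := by ring
        _ ≤ |γ i * (-(EX X (∏ p ∈ s, p) (fun n => ratio (a i) n) - cX s (Real.log X) (a i)))| := le_abs_self _
        _ = |γ i| * |EX X (∏ p ∈ s, p) (fun n => ratio (a i) n) - cX s (Real.log X) (a i)| := by rw [abs_mul, abs_neg]
        _ ≤ _ := mul_le_mul_of_nonneg_left (hmean (a i) (ha i).le (hB i)) (abs_nonneg _)
    have e3 : ∑ i, |γ i| = 1 := hγK
    rw [← sum_mul, e3, one_mul] at e1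
    linarith
  have h5 : ∑ i, α i * (cX s (Real.log X) (a i) - 1) - ∑ i, γ i * (cX s (Real.log X) (a i) - 1) ≤ ∑ i, |γ i - α i| := by
    rw [← sum_sub_distrib]
    refine sum_le_sum fun i _ => ?_
    obtain ⟨q1, q2⟩ := cX_le s (Real.log X) (a i) hL hPP
    calc α i * (cX s (Real.log X) (a i) - 1) - γ i * (cX s (Real.log X) (a i) - 1)
        = -((γ i - α i) * (cX s (Real.log X) (a i) - 1)) := by ring
      _ ≤ |-((γ i - α i) * (cX s (Real.log X) (a i) - 1))| := le_abs_self _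
      _ = |γ i - α i| * |cX s (Real.log X) (a i) - 1| := by rw [abs_neg, abs_mul]
      _ ≤ |γ i - α i| * 1 := by
          apply mul_le_mul_of_nonneg_left _ (abs_nonneg _)
          rw [abs_le]; constructor <;> linarith
      _ = _ := mul_one _
  have h6 : ∀ κ : Fin m → ℝ, ∑ i, κ i * (cX s (Real.log X) (a i) - 1) = ∑ i, κ i * cX s (Real.log X) (a i) - ∑ i, κ i := by
    intro κ
    rw [← sum_sub_distrib]; exact sum_congr rfl fun i _ => by ring
  rw [h6, h6] at h5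
  have h7 := hδt α hα
  linarith

end Pool.Agent.W5h22.JM
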