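import Pool.Agent.H510R2.Maier.MA3
import Pool.Agent.H510R2.Maier.MA4

/-! Multiples of `Q` and primes at a given distance. -/

set_option autoImplicit false

open Finset Filter Topology
open Pool.Agent.H378R2 Pool.Agent.H510R2.Maier

namespace Pool.Agent.W5h22.JM

theorem count_cop (M Q h : ℕ) (hM : 0 < M) (hc : Q.Coprime M) :
    ((range M).filter (fun t => (Q * t + h).Coprime M)).card = M.totient := by
  classical
  set f : ℕ → ℕ := fun t => (Q * t + h) % M with hf
  have hinj : Set.InjOn f (range M : Finset ℕ) := by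
    intro a ha b hb hab
    rw [mem_coe, mem_range] at ha hb
    have h1 : Q * a + h ≡ Q * b + h [MOD M] := hab
    have h2 : Q * a ≡ Q * b [MOD M] := Nat.ModEq.add_right_cancel' h h1
    have h3 : a ≡ b [MOD M] := Nat.ModEq.cancel_left_of_coprime (by rw [Nat.gcd_comm]; exact hc) h2
    exact Nat.ModEq.eq_of_lt_of_lt h3 ha hb
  have himg : (range M).image f = range M := by
    apply Finset.eq_of_subset_of_card_le
    · intro x hx
      obtain ⟨t, _, rfl⟩ := mem_image.1 hx
      exact mem_range.2 (Nat.mod_lt _ hM)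
    · rw [card_image_of_injOn hinj]
  have h1 : ((range M).filter (fun t => (Q * t + h).Coprime M)).image f = (range M).filter (fun r => r.Coprime M) := by
    ext r
    simp only [mem_image, mem_filter]
    constructor
    · rintro ⟨t, ⟨ht, htc⟩, rfl⟩
      refine ⟨mem_range.2 (Nat.mod_lt _ hM), ?_⟩
      rw [Nat.Coprime, ← Nat.gcd_rec, Nat.gcd_comm] 
      exact htc
    · rintro ⟨hr, hrc⟩
      have h2 : r ∈ (range M).image f := by rw [himg]; exact hr
      obtain ⟨t, ht, rfl⟩ := mem_image.1 h2
      refine ⟨t, ⟨ht, ?_⟩, rfl⟩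
      have h3 : Nat.gcd ((Q * t + h) % M) M = 1 := hrc
      rw [← Nat.gcd_rec, Nat.gcd_comm] at h3
      exact h3
  have h2 : ((range M).filter (fun t => (Q * t + h).Coprime M)).card = ((range M).filter (fun r => r.Coprime M)).card := by
    rw [← h1, card_image_of_injOn]
    exact hinj.mono (by intro x hx; exact (mem_filter.1 hx).1)
  rw [h2, Nat.totient_eq_card_coprime]
  congr 1
  ext r
  simp only [mem_filter, Nat.coprime_comm]

/-- one residue class -/
theorem one_class (X : ℝ) (hX : 4 ≤ X) (W r h : ℕ) (hh : (h : ℝ) ≤ X / 2)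
    (hW : ∀ p : ℕ, p.Prime → p ∣ W → (p : ℝ) ≤ X) (E : ℝ)
    (hE : ∀ b : ℕ, b.Coprime W → |EPhi X W b| ≤ E) :
    |∑ n ∈ Icc 1 ⌊3 * X⌋₊, nu X W r n * th (n + h) -
      (if (r + h).Coprime W then LPhi X * (1 / (Nat.totient W : ℝ)) else 0)| ≤
      (if (r + h).Coprime W then E else 0) + (4 * h * Real.log (4 * X) + 4 * Real.sqrt X * Real.log (4 * X)) := by
  classical
  set N := ⌊3 * X⌋₊ with hN
  have hX0 : 0 < X := by linarith
  have hl : 0 ≤ Real.log (4 * X) := Real.log_nonneg (by linarith)
  have hsq : 0 ≤ 4 * Real.sqrt X * Real.log (4 * X) := by positivity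
  have hh0 : (0 : ℝ) ≤ 4 * h * Real.log (4 * X) := by positivity
  by_cases hc : (r + h).Coprime W
  · rw [if_pos hc, if_pos hc]
    have a1 := shift_bound X hX W r h hh (fun _ => (1 : ℝ)) 1 (fun _ => by simp)
    simp only [mul_one, one_mul] at a1
    have a2 := hE (r + h) hc
    rw [EPhi_eq] at a2
    have a4 : ∑ n ∈ (Icc 1 N).filter (fun n => n ≡ r + h [MOD W]),
        Phi (n / X) * ArithmeticFunction.vonMangoldt n =
        ∑ n ∈ Icc 1 N, (if n ≡ r + h [MOD W] then Phi (n / X) * ArithmeticFunction.vonMangoldt n else 0) := by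
      rw [Finset.sum_filter]
    rw [a4] at a2
    rw [abs_le] at a1 a2 ⊢
    constructor
    · linarith [a1.1, a2.1]
    · linarith [a1.2, a2.2]
  · rw [if_neg hc, if_neg hc, sub_zero, zero_add]
    have hz : ∑ n ∈ Icc 1 N, nu X W r n * th (n + h) = 0 := by
      apply Finset.sum_eq_zero
      intro n hn
      unfold nu
      split_ifs with hmod
      · rcases le_or_gt (n : ℝ) X with hnX | hnX
        · rw [Phi_eq_zero_of_le (by positivity) (by rw [div_le_one hX0]; exact hnX), zero_mul]
        · unfold th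
          split_ifs with hp
          · exfalso
            obtain ⟨p, hpp, hp1, hp2⟩ := Nat.Prime.not_coprime_iff_dvd.1 hc
            have hmod2 : n + h ≡ r + h [MOD W] := Nat.ModEq.add_right _ hmod
            have hmod3 : n + h ≡ r + h [MOD p] := hmod2.of_dvd hp2
            have hdvd : p ∣ n + h := (Nat.ModEq.dvd_iff hmod3 dvd_rfl).2 hp1
            have heq : p = n + h := (Nat.prime_dvd_prime_iff_eq hpp hp).1 hdvd
            have := hW p hpp hp2
            rw [heq] at this
            push_cast at this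
            have : (0 : ℝ) ≤ h := by positivity
            linarith
          · rw [mul_zero]
      · rw [zero_mul]
    rw [hz, abs_zero]
    positivity

/-- the multiples of `Q` as a union of residue classes mod `Q M` -/
theorem nu_split (X : ℝ) (Q M n : ℕ) (hQ : 0 < Q) (hM : 0 < M) :
    nu X Q 0 n = ∑ t ∈ range M, nu X (Q * M) (Q * t) n := by
  classical
  unfold nu
  rw [← sum_filter, sum_const, nsmul_eq_mul]
  by_cases h : n ≡ 0 [MOD Q]
  · rw [if_pos h]
    obtain ⟨m, rfl⟩ := (Nat.modEq_zero_iff_dvd).1 h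
    have h1 : (range M).filter (fun t => Q * m ≡ Q * t [MOD Q * M]) = {m % M} := by
      ext t
      rw [mem_filter, mem_range, mem_singleton]
      constructor
      · rintro ⟨h2, h3⟩
        have h4 : m ≡ t [MOD M] := Nat.ModEq.mul_left_cancel' hQ.ne' h3
        have h5 : m % M = t % M := h4
        rw [h5, Nat.mod_eq_of_lt h2]
      · rintro rfl
        exact ⟨Nat.mod_lt _ hM, Nat.ModEq.mul_left' Q (Nat.mod_modEq m M).symm⟩
    rw [h1]
    simp
  · rw [if_neg h]
    have h1 : (range M).filter (fun t => n ≡ Q * t [MOD Q * M]) = ∅ := by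
      rw [filter_eq_empty_iff]
      intro t _ h2
      apply h
      have h3 : n ≡ Q * t [MOD Q] := h2.of_mul_right M
      exact h3.trans ((Nat.modEq_zero_iff_dvd).2 (dvd_mul_right Q t))
    rw [h1]
    simp

/-- all multiples of `Q` -/
theorem all_mult (X : ℝ) (hX : 4 ≤ X) (Q M h : ℕ) (hQ : 0 < Q) (hM : 0 < M) (hc : Q.Coprime M)
    (hh : (h : ℝ) ≤ X / 2) (hW : ∀ p : ℕ, p.Prime → p ∣ Q * M → (p : ℝ) ≤ X) (E : ℝ)
    (hE : ∀ b : ℕ, b.Coprime (Q * M) → |EPhi X (Q * M) b| ≤ E) :
    |∑ n ∈ Icc 1 ⌊3 * X⌋₊, nu X Q 0 n * th (n + h) -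
      (if h.Coprime Q then LPhi X * (1 / (Nat.totient Q : ℝ)) else 0)| ≤
      M.totient * E + M * (4 * h * Real.log (4 * X) + 4 * Real.sqrt X * Real.log (4 * X)) := by
  classical
  have hE0 : 0 ≤ E := (abs_nonneg _).trans (hE 1 (Nat.coprime_one_left _))
  have e1 : ∑ n ∈ Icc 1 ⌊3 * X⌋₊, nu X Q 0 n * th (n + h) =
      ∑ t ∈ range M, ∑ n ∈ Icc 1 ⌊3 * X⌋₊, nu X (Q * M) (Q * t) n * th (n + h) := by
    rw [sum_comm]
    refine sum_congr rfl fun n _ => ?_
    rw [nu_split X Q M n hQ hM, sum_mul]
  have hcount : ((range M).filter (fun t => (Q * t + h).Coprime (Q * M))).card = if h.Coprime Q then M.totient else 0 := by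
    split_ifs with hq
    · rw [← count_cop M Q h hM hc]
      congr 1
      ext t
      simp only [mem_filter, and_congr_right_iff]
      intro _
      rw [Nat.coprime_mul_iff_right]
      constructor
      · exact fun h1 => h1.2
      · intro h1
        refine ⟨?_, h1⟩
        rw [add_comm]
        simpa using hq
    · rw [card_eq_zero, filter_eq_empty_iff]
      intro t _ h1
      apply hq
      rw [Nat.coprime_mul_iff_right] at h1
      have h2 := h1.1
      rw [add_comm] at h2
      simpa using h2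
  have hφ : ((Q * M).totient : ℝ) = Q.totient * M.totient := by rw [Nat.totient_mul hc]; push_cast; ring
  have hφQ : (0 : ℝ) < Q.totient := by exact_mod_cast Nat.totient_pos.2 hQ
  have hφM : (0 : ℝ) < M.totient := by exact_mod_cast Nat.totient_pos.2 hM
  have e2 : (if h.Coprime Q then LPhi X * (1 / (Nat.totient Q : ℝ)) else 0) =
      ∑ t ∈ range M, (if (Q * t + h).Coprime (Q * M) then LPhi X * (1 / (Nat.totient (Q * M) : ℝ)) else 0) := by
    rw [← sum_filter, sum_const, nsmul_eq_mul, hcount, hφ]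
    split_ifs
    · field_simp
    · simp
  rw [e1, e2, ← sum_sub_distrib]
  refine (abs_sum_le_sum_abs _ _).trans ?_
  have h3 := sum_le_sum fun t (_ : t ∈ range M) => one_class X hX (Q * M) (Q * t) h hh hW E hE
  refine h3.trans ?_
  rw [sum_add_distrib, ← sum_filter, sum_const, sum_const, nsmul_eq_mul, nsmul_eq_mul, card_range, hcount]
  apply add_le_add_left
  split_ifs
  · exact le_rfl
  · have : 0 ≤ (M.totient : ℝ) * E := by positivity
    simpa using this

end Pool.Agent.W5h22.JM
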