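import Mathlib

/-! Two different finite measures on the line: a good place to separate them. -/

set_option autoImplicit false

open Set Filter Topology MeasureTheory

namespace Pool.Agent.W5h22.JM

/-- the difference of the distribution functions -/
noncomputable def G (μ ν : Measure ℝ) (s : ℝ) : ℝ := μ.real (Iio s) - ν.real (Iio s)

theorem real_lim {ι : Type*} {L : Filter ι} [L.IsCountablyGenerated] (μ : Measure ℝ) [IsFiniteMeasure μ]
    (As : ι → Set ℝ) (A : Set ℝ) (hA : ∀ i, MeasurableSet (As i)) (h : ∀ x, ∀ᶠ i in L, x ∈ As i ↔ x ∈ A) :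
    Tendsto (fun i => μ.real (As i)) L (𝓝 (μ.real A)) :=
  (ENNReal.tendsto_toReal (measure_ne_top _ _)).comp
    (tendsto_measure_of_tendsto_indicator_of_isFiniteMeasure L μ hA h)

theorem Iio_lim (s x : ℝ) : ∀ᶠ t in 𝓝[<] s, x ∈ Iio t ↔ x ∈ Iio s := by
  rcases lt_or_ge x s with h | h
  · filter_upwards [Ioo_mem_nhdsLT h] with t ht
    simp only [mem_Iio]
    exact ⟨fun _ => h, fun _ => ht.1⟩
  · filter_upwards [self_mem_nhdsWithin] with t ht
    simp only [mem_Iio] at ht ⊢
    constructor <;> intro h1 <;> linarith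

theorem G_left (μ ν : Measure ℝ) [IsFiniteMeasure μ] [IsFiniteMeasure ν] (s : ℝ) :
    Tendsto (G μ ν) (𝓝[<] s) (𝓝 (G μ ν s)) :=
  (real_lim μ (fun t => Iio t) _ (fun _ => measurableSet_Iio) (Iio_lim s)).sub
    (real_lim ν (fun t => Iio t) _ (fun _ => measurableSet_Iio) (Iio_lim s))

theorem Icc_lim (μ : Measure ℝ) [IsFiniteMeasure μ] (b : ℝ) :
    Tendsto (fun η : ℝ => μ.real (Icc (b - η) (b + η))) (𝓝[>] 0) (𝓝 (μ.real {b})) := by
  refine real_lim μ (fun η : ℝ => Icc (b - η) (b + η)) _ (fun _ => measurableSet_Icc) fun x => ?_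
  rcases eq_or_ne x b with rfl | h
  · filter_upwards [self_mem_nhdsWithin] with η hη
    simp only [mem_Ioi] at hη
    simp only [mem_Icc, mem_singleton_iff, iff_true]
    constructor <;> linarith
  · have h1 : 0 < |x - b| := abs_pos.2 (sub_ne_zero.2 h)
    filter_upwards [Ioo_mem_nhdsGT h1] with η hη
    simp only [mem_Icc, mem_singleton_iff]
    constructor
    · rintro ⟨h2, h3⟩
      exfalso
      have : |x - b| ≤ η := by rw [abs_le]; constructor <;> linarith
      linarith [hη.2]
    · intro h2
      exact absurd h2 h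

theorem Ico_real (μ : Measure ℝ) [IsFiniteMeasure μ] {a b : ℝ} (h : a ≤ b) :
    μ.real (Ico a b) = μ.real (Iio b) - μ.real (Iio a) := by
  have h1 : Iio b = Iio a ∪ Ico a b := (Iio_union_Ico_eq_Iio h).symm
  have h2 : Disjoint (Iio a) (Ico a b) := by
    rw [Set.disjoint_left]
    intro x hx hx2
    exact absurd hx2.1 (not_le.2 hx)
  rw [h1, measureReal_union h2 measurableSet_Ico]
  ring

/-- the two measures agree to the left of `a0` and differ immediately to the right of it -/
theorem exists_a0 (μ ν : Measure ℝ) [IsFiniteMeasure μ] [IsFiniteMeasure ν] (A : ℝ)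
    (hμ : μ (Iio A) = 0) (hν : ν (Iio A) = 0) (hne : μ ≠ ν) :
    ∃ a0 : ℝ, A ≤ a0 ∧ μ.restrict (Iio a0) = ν.restrict (Iio a0) ∧
      ∀ τ : ℝ, 0 < τ → ∃ b : ℝ, a0 < b ∧ b < a0 + τ ∧ G μ ν b ≠ 0 ∧ μ {b} = 0 ∧ ν {b} = 0 := by
  have hG0 : ∀ s ≤ A, G μ ν s = 0 := by
    intro s hs
    have h1 : μ (Iio s) = 0 := measure_mono_null (Iio_subset_Iio hs) hμ
    have h2 : ν (Iio s) = 0 := measure_mono_null (Iio_subset_Iio hs) hν
    unfold G
    rw [Measure.real, Measure.real, h1, h2]; simp
  set Z : Set ℝ := {s | G μ ν s ≠ 0} with hZ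
  have hZne : Z.Nonempty := by
    by_contra hcon
    apply hne
    apply Measure.ext_of_Ico
    intro a b hab
    have h1 : ∀ s, G μ ν s = 0 := by
      intro s
      by_contra h
      exact hcon ⟨s, h⟩
    have h2 := h1 a
    have h3 := h1 b
    unfold G at h2 h3
    have h4 := Ico_real μ hab.le
    have h5 := Ico_real ν hab.le
    have h6 : μ.real (Ico a b) = ν.real (Ico a b) := by rw [h4, h5]; linarith
    rw [Measure.real, Measure.real, ENNReal.toReal_eq_toReal_iff' (measure_ne_top _ _) (measure_ne_top _ _)] at h6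
    exact h6
  have hZb : BddBelow Z := by
    refine ⟨A, fun s hs => ?_⟩
    by_contra h
    exact hs (hG0 s (not_le.1 h).le)
  set a0 := sInf Z with ha0
  have hlt : ∀ s < a0, G μ ν s = 0 := by
    intro s hs
    by_contra h
    exact absurd (csInf_le hZb (show s ∈ Z from h)) (not_le.2 hs)
  have hG : G μ ν a0 = 0 := by
    have h1 := G_left μ ν a0
    have h2 : Tendsto (G μ ν) (𝓝[<] a0) (𝓝 0) := by
      refine tendsto_const_nhds.congr' ?_
      filter_upwards [self_mem_nhdsWithin] with t ht
      exact (hlt t ht).symm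
    exact tendsto_nhds_unique h1 h2
  have hle : ∀ s ≤ a0, G μ ν s = 0 := by
    intro s hs
    rcases eq_or_lt_of_le hs with h | h
    · rw [h]; exact hG
    · exact hlt s h
  refine ⟨a0, le_csInf hZne fun s hs => ?_, ?_, fun τ hτ => ?_⟩
  · by_contra h
    exact hs (hG0 s (not_le.1 h).le)
  · apply Measure.ext_of_Ico
    intro a b hab
    rw [Measure.restrict_apply measurableSet_Ico, Measure.restrict_apply measurableSet_Ico]
    have h1 : Ico a b ∩ Iio a0 = Ico (min a a0) (min b a0) := by
      ext x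
      simp only [mem_inter_iff, mem_Ico, mem_Iio, lt_min_iff, min_le_iff]
      constructor
      · rintro ⟨⟨h1, h2⟩, h3⟩
        exact ⟨Or.inl h1, h2, h3⟩
      · rintro ⟨h1, h2, h3⟩
        refine ⟨⟨?_, h2⟩, h3⟩
        rcases h1 with h1 | h1
        · exact h1
        · exact absurd h1 (not_le.2 h3)
    rw [h1]
    have h2 := hle (min a a0) (min_le_right _ _)
    have h3 := hle (min b a0) (min_le_right _ _)
    unfold G at h2 h3
    have hm : min a a0 ≤ min b a0 := min_le_min_right _ hab.le
    have h4 := Ico_real μ hm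
    have h5 := Ico_real ν hm
    have h6 : μ.real (Ico (min a a0) (min b a0)) = ν.real (Ico (min a a0) (min b a0)) := by rw [h4, h5]; linarith
    rw [Measure.real, Measure.real, ENNReal.toReal_eq_toReal_iff' (measure_ne_top _ _) (measure_ne_top _ _)] at h6
    exact h6
  · obtain ⟨s, hsZ, hs⟩ := exists_lt_of_csInf_lt hZne (show sInf Z < a0 + τ by rw [← ha0]; linarith)
    have hs0 : a0 < s := by
      rcases lt_or_ge a0 s with h | h
      · exact h
      · exact absurd (hle s h) hsZ
    have h1 : ∀ᶠ t in 𝓝[<] s, G μ ν t ≠ 0 := (G_left μ ν s).eventually_ne hsZ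
    have h2 : ∀ᶠ t in 𝓝[<] s, a0 < t := by
      filter_upwards [Ioo_mem_nhdsLT hs0] with t ht using ht.1
    obtain ⟨l, hl, hls⟩ := (mem_nhdsLT_iff_exists_Ioo_subset).1 (h1.and h2)
    have hc : ((Ioo l s) \ ({x | 0 < μ {x}} ∪ {x | 0 < ν {x}})).Nonempty := by
      by_contra hcon
      rw [Set.not_nonempty_iff_eq_empty, Set.sdiff_eq_empty] at hcon
      have hd : Pairwise (Function.onFun Disjoint fun x : ℝ => ({x} : Set ℝ)) := by
        intro x y hxy
        simpa [Function.onFun] using hxy
      have c1 := Measure.countable_meas_pos_of_disjoint_iUnion (μ := μ)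
        (fun x : ℝ => measurableSet_singleton x) hd
      have c2 := Measure.countable_meas_pos_of_disjoint_iUnion (μ := ν)
        (fun x : ℝ => measurableSet_singleton x) hd
      have c3 := (c1.union c2).mono hcon
      exact (Cardinal.Real.Ioo_countable_iff.1 c3).not_gt hl
    obtain ⟨b, hb1, hb2⟩ := hc
    have hb3 := hls hb1
    refine ⟨b, hb3.2, hb1.2.trans hs, hb3.1, ?_, ?_⟩
    · by_contra h
      exact hb2 (Or.inl (pos_iff_ne_zero.2 h))
    · by_contra h
      exact hb2 (Or.inr (pos_iff_ne_zero.2 h))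

/-- the main comparison -/
theorem compare (μ ν : Measure ℝ) [IsFiniteMeasure μ] [IsFiniteMeasure ν] (a0 b η : ℝ) (hη : 0 < η)
    (hab : a0 ≤ b - η) (h0 : μ.restrict (Iio a0) = ν.restrict (Iio a0)) (g : ℝ → ℝ) (hg : Measurable g)
    (hgμ : Integrable g μ) (hgν : Integrable g ν) (c E1 E2 : ℝ) (hE1 : 0 ≤ E1) (hE2 : 0 ≤ E2)
    (hI : ∀ a, a0 ≤ a → a < b - η → |g a - c| ≤ E1)
    (hII : ∀ a, b - η ≤ a → a ≤ b + η → |g a| ≤ E1 + E2)
    (hIII : ∀ a, b + η < a → |g a| ≤ E1) :
    c * G μ ν (b - η) - E1 * (μ.real univ + ν.real univ) -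
      E2 * (μ.real (Icc (b - η) (b + η)) + ν.real (Icc (b - η) (b + η))) ≤ ∫ a, g a ∂μ - ∫ a, g a ∂ν := by
  set I := Ico a0 (b - η) with hIdef
  set J := Icc (b - η) (b + η) with hJdef
  set h : ℝ → ℝ := fun a => g a - I.indicator (fun _ => c) a with hh
  have hhm : Measurable h := hg.sub (measurable_const.indicator measurableSet_Ico)
  have key : ∀ ρ : Measure ℝ, IsFiniteMeasure ρ → Integrable g ρ →
      ∫ a, g a ∂ρ = ∫ a in Iio a0, g a ∂ρ + c * ρ.real I + ∫ a in Ici a0, h a ∂ρ ∧
      |∫ a in Ici a0, h a ∂ρ| ≤ E1 * ρ.real univ + E2 * ρ.real J := by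
    intro ρ _ hgρ
    have hI1 : Integrable (I.indicator (fun _ : ℝ => c)) ρ := (integrable_const c).indicator measurableSet_Ico
    have hh1 : Integrable h ρ := hgρ.sub hI1
    constructor
    · have e1 : ∫ a, g a ∂ρ = ∫ a in Iio a0, g a ∂ρ + ∫ a in Ici a0, g a ∂ρ := by
        have := integral_add_compl (measurableSet_Iio (a := a0)) hgρ
        rw [compl_Iio] at this
        exact this.symm
      have e2 : ∫ a in Ici a0, g a ∂ρ = ∫ a in Ici a0, h a ∂ρ + ∫ a in Ici a0, I.indicator (fun _ => c) a ∂ρ := by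
        rw [← integral_add hh1.integrableOn hI1.integrableOn]
        refine integral_congr_ae (Eventually.of_forall fun a => ?_)
        simp only [hh]; ring
      have e3 : ∫ a in Ici a0, I.indicator (fun _ => c) a ∂ρ = c * ρ.real I := by
        rw [integral_indicator measurableSet_Ico, Measure.restrict_restrict measurableSet_Ico, setIntegral_const,
          smul_eq_mul, mul_comm]
        congr 2
        exact inter_eq_left.2 fun x hx => hx.1
      rw [e1, e2, e3]; ring
    · have hb : ∀ a ∈ Ici a0, ‖h a‖ ≤ E1 + J.indicator (fun _ => E2) a := by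
        intro a ha
        rw [Real.norm_eq_abs]
        simp only [hh]
        rcases lt_or_ge a (b - η) with h1 | h1
        · rw [indicator_of_mem (show a ∈ I from ⟨ha, h1⟩), indicator_of_notMem (show a ∉ J from fun h2 => absurd h2.1 (not_le.2 h1)), add_zero]
          exact hI a ha h1
        · rw [indicator_of_notMem (show a ∉ I from fun h2 => absurd h2.2 (not_lt.2 h1)), sub_zero]
          rcases le_or_gt a (b + η) with h2 | h2
          · rw [indicator_of_mem (show a ∈ J from ⟨h1, h2⟩)]
            exact hII a h1 h2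
          · rw [indicator_of_notMem (show a ∉ J from fun h3 => absurd h3.2 (not_le.2 h2)), add_zero]
            exact hIII a h2
      have hJ1 : Integrable (fun a => E1 + J.indicator (fun _ : ℝ => E2) a) ρ :=
        (integrable_const E1).add ((integrable_const E2).indicator measurableSet_Icc)
      have h1 := norm_integral_le_of_norm_le (μ := ρ.restrict (Ici a0)) (f := h) hJ1.integrableOn
        ((ae_restrict_iff' measurableSet_Ici).2 (Eventually.of_forall hb))
      rw [Real.norm_eq_abs] at h1
      refine h1.trans ?_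
      have h2 : ∫ a in Ici a0, (E1 + J.indicator (fun _ : ℝ => E2) a) ∂ρ ≤ ∫ a, (E1 + J.indicator (fun _ : ℝ => E2) a) ∂ρ := by
        apply setIntegral_le_integral hJ1
        refine Eventually.of_forall fun a => ?_
        have : 0 ≤ J.indicator (fun _ : ℝ => E2) a := indicator_nonneg (fun _ _ => hE2) a
        simp only [Pi.zero_apply]
        linarith
      refine h2.trans (le_of_eq ?_)
      rw [integral_add (integrable_const E1) ((integrable_const E2).indicator measurableSet_Icc), integral_const,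
        integral_indicator measurableSet_Icc, setIntegral_const, smul_eq_mul, smul_eq_mul]
      ring
  obtain ⟨k1, k2⟩ := key μ inferInstance hgμ
  obtain ⟨k3, k4⟩ := key ν inferInstance hgν
  have e0 : ∫ a in Iio a0, g a ∂μ = ∫ a in Iio a0, g a ∂ν := by rw [h0]
  have e1 : G μ ν (b - η) = μ.real I - ν.real I := by
    have h1 := Ico_real μ hab
    have h2 := Ico_real ν hab
    have h3 : μ.real (Iio a0) = ν.real (Iio a0) := by
      have := congrArg (fun m : Measure ℝ => m.real univ) h0
      simpa [Measure.real, Measure.restrict_apply] using this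
    unfold G
    rw [h1, h2, h3]; ring
  rw [k1, k3, e0, e1]
  rw [abs_le] at k2 k4
  have hm : c * (μ.real I - ν.real I) = c * μ.real I - c * ν.real I := by ring
  rw [hm]
  linarith [k2.1, k4.2]

end Pool.Agent.W5h22.JM
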