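import Pool.Agent.W5h22.JM.C
import Pool.Agent.W5h22.JM.D

/-! The model: integers without prime factors in a thin range. -/

set_option autoImplicit false

open Finset Filter Topology MeasureTheory

namespace Pool.Agent.W5h22.JM

/-- the density of the integers prime to all elements of `s` -/
noncomputable def PP (s : Finset ℕ) : ℝ := ((∏ p ∈ s, p : ℕ).totient : ℝ) / (∏ p ∈ s, p : ℕ)

/-- the normalised number of integers up to `L ^ a` prime to all elements of `s` -/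
noncomputable def cX (s : Finset ℕ) (L a : ℝ) : ℝ := (cnt s ⌊L ^ a⌋₊ : ℝ) / (L ^ a * PP s)

theorem PP_pos (s : Finset ℕ) (hs : ∀ p ∈ s, p.Prime) : 0 < PP s := by
  have h := prod_ne s hs (Subset.refl s)
  have h1 : (0 : ℝ) < ((∏ p ∈ s, p : ℕ) : ℝ) := by exact_mod_cast h
  have h2 : (0 : ℝ) < ((∏ p ∈ s, p : ℕ).totient : ℝ) := by exact_mod_cast Nat.totient_pos.2 h
  exact div_pos h2 h1

theorem PP_le_one (s : Finset ℕ) (hs : ∀ p ∈ s, p.Prime) : PP s ≤ 1 := by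
  have h := prod_ne s hs (Subset.refl s)
  have h1 : (0 : ℝ) < ((∏ p ∈ s, p : ℕ) : ℝ) := by exact_mod_cast h
  unfold PP
  rw [div_le_one h1]
  exact_mod_cast Nat.totient_le _

theorem cnt_le (s : Finset ℕ) (Y : ℕ) : cnt s Y ≤ Y := by
  unfold cnt
  refine (card_filter_le _ _).trans ?_
  simp

/-- general bound -/
theorem g1 (s : Finset ℕ) (hs : ∀ p ∈ s, p.Prime) (Y J : ℕ) (hJ : 1 ≤ J) :
    |(cnt s Y : ℝ) - Y * PP s| ≤ ∑ j ∈ range J, (s.card : ℝ) ^ j + 2 * (Y * ee s J) := by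
  have h1 := bonf s hs Y J hJ
  have h2 := bonf_prod s hs J hJ
  have h3 := div_le_ee s Y J
  have h4 : |∑ j ∈ range J, (-1 : ℝ) ^ j * ∑ T ∈ s.powersetCard j, ((Y / ∏ p ∈ T, p : ℕ) : ℝ) -
      Y * ∑ j ∈ range J, (-1 : ℝ) ^ j * ee s j| ≤ ∑ j ∈ range J, (s.card : ℝ) ^ j := by
    rw [mul_sum, ← sum_sub_distrib]
    refine (abs_sum_le_sum_abs _ _).trans (sum_le_sum fun j _ => ?_)
    have e1 : (-1 : ℝ) ^ j * ∑ T ∈ s.powersetCard j, ((Y / ∏ p ∈ T, p : ℕ) : ℝ) - Y * ((-1 : ℝ) ^ j * ee s j) =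
        (-1 : ℝ) ^ j * (∑ T ∈ s.powersetCard j, ((Y / ∏ p ∈ T, p : ℕ) : ℝ) - Y * ee s j) := by ring
    rw [e1, abs_mul, abs_pow, abs_neg, abs_one, one_pow, one_mul, abs_le]
    have e2 := div_le_ee s Y j
    have e3 := div_ge_ee s Y j
    constructor
    · linarith
    · have : 0 ≤ (s.card : ℝ) ^ j := by positivity
      linarith
  have hY : (0 : ℝ) ≤ Y := Nat.cast_nonneg Y
  have h5 : |Y * PP s - Y * ∑ j ∈ range J, (-1 : ℝ) ^ j * ee s j| ≤ Y * ee s J := by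
    rw [← mul_sub, abs_mul, abs_of_nonneg hY]
    exact mul_le_mul_of_nonneg_left h2 hY
  rw [abs_le] at h1 h4 h5 ⊢
  constructor
  · linarith [h1.1, h4.1, h5.2]
  · linarith [h1.2, h4.2, h5.1]

/-- short intervals -/
theorem g2 (s : Finset ℕ) (hs : ∀ p ∈ s, p.Prime) (Y k : ℕ) (hk : 1 ≤ k) (z : ℝ) (hz : 0 < z)
    (hsz : ∀ p ∈ s, z ≤ p) (hY : (Y : ℝ) < z ^ k) :
    |(cnt s Y : ℝ) - Y * PP s + (-1) ^ k * (Y * ee s k)| ≤ ∑ j ∈ range k, (s.card : ℝ) ^ j + Y * ee s (k + 1) := by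
  have h1 := bonf s hs Y k hk
  have h2 := bonf_prod s hs (k + 1) (by omega)
  have h3 : ∑ T ∈ s.powersetCard k, ((Y / ∏ p ∈ T, p : ℕ) : ℝ) = 0 := by
    apply sum_eq_zero
    intro T hT
    rw [mem_powersetCard] at hT
    have e1 : z ^ k ≤ ((∏ p ∈ T, p : ℕ) : ℝ) := by
      push_cast
      calc z ^ k = ∏ _p ∈ T, z := by rw [prod_const, hT.2]
        _ ≤ ∏ p ∈ T, (p : ℝ) := Finset.prod_le_prod (fun _ _ => hz.le) fun p hp => hsz p (hT.1 hp)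
    have e2 : Y < ∏ p ∈ T, p := by exact_mod_cast lt_of_lt_of_le hY e1
    rw [Nat.div_eq_of_lt e2]; simp
  rw [h3] at h1
  have h4 : |∑ j ∈ range k, (-1 : ℝ) ^ j * ∑ T ∈ s.powersetCard j, ((Y / ∏ p ∈ T, p : ℕ) : ℝ) -
      Y * ∑ j ∈ range k, (-1 : ℝ) ^ j * ee s j| ≤ ∑ j ∈ range k, (s.card : ℝ) ^ j := by
    rw [mul_sum, ← sum_sub_distrib]
    refine (abs_sum_le_sum_abs _ _).trans (sum_le_sum fun j _ => ?_)
    have e1 : (-1 : ℝ) ^ j * ∑ T ∈ s.powersetCard j, ((Y / ∏ p ∈ T, p : ℕ) : ℝ) - Y * ((-1 : ℝ) ^ j * ee s j) =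
        (-1 : ℝ) ^ j * (∑ T ∈ s.powersetCard j, ((Y / ∏ p ∈ T, p : ℕ) : ℝ) - Y * ee s j) := by ring
    rw [e1, abs_mul, abs_pow, abs_neg, abs_one, one_pow, one_mul, abs_le]
    have e2 := div_le_ee s Y j
    have e3 := div_ge_ee s Y j
    constructor
    · linarith
    · have : 0 ≤ (s.card : ℝ) ^ j := by positivity
      linarith
  have hY0 : (0 : ℝ) ≤ Y := Nat.cast_nonneg Y
  rw [sum_range_succ] at h2
  have h5 : |Y * PP s - Y * (∑ j ∈ range k, (-1 : ℝ) ^ j * ee s j + (-1) ^ k * ee s k)| ≤ Y * ee s (k + 1) := by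
    rw [← mul_sub, abs_mul, abs_of_nonneg hY0]
    exact mul_le_mul_of_nonneg_left h2 hY0
  rw [mul_add] at h5
  have e4 : (Y : ℝ) * ((-1) ^ k * ee s k) = (-1) ^ k * (Y * ee s k) := by ring
  rw [e4] at h5
  rw [abs_le] at h1 h4 h5 ⊢
  constructor
  · linarith [h1.1, h4.1, h5.2]
  · linarith [h1.2, h4.2, h5.1]

/-- the function whose integrals are compared -/
noncomputable def gg (s : Finset ℕ) (L a : ℝ) : ℝ := (cnt s ⌊L ^ a⌋₊ : ℝ) / L ^ a - PP s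

theorem gg_meas (s : Finset ℕ) (L : ℝ) (hL : 0 < L) : Measurable (gg s L) := by
  have h1 : Measurable fun a : ℝ => L ^ a := (Real.continuous_const_rpow hL.ne').measurable
  have h2 : Measurable fun a : ℝ => ((cnt s ⌊L ^ a⌋₊ : ℕ) : ℝ) :=
    (measurable_from_nat (f := fun n : ℕ => ((cnt s n : ℕ) : ℝ))).comp (Nat.measurable_floor.comp h1)
  exact (h2.div h1).sub_const _

theorem cnt_floor_le (s : Finset ℕ) (y : ℝ) (hy : 0 ≤ y) : (cnt s ⌊y⌋₊ : ℝ) ≤ y :=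
  le_trans (by exact_mod_cast cnt_le s _) (Nat.floor_le hy)

theorem gg_int (s : Finset ℕ) (hs : ∀ p ∈ s, p.Prime) (L : ℝ) (hL : 0 < L) (ρ : Measure ℝ) [IsFiniteMeasure ρ] :
    Integrable (gg s L) ρ := by
  refine Integrable.of_bound (gg_meas s L hL).aestronglyMeasurable 1 (Eventually.of_forall fun a => ?_)
  have h1 : 0 < L ^ a := Real.rpow_pos_of_pos hL a
  have h2 := cnt_floor_le s (L ^ a) h1.le
  have h3 : (cnt s ⌊L ^ a⌋₊ : ℝ) / L ^ a ≤ 1 := (div_le_one h1).2 h2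
  have h4 : 0 ≤ (cnt s ⌊L ^ a⌋₊ : ℝ) / L ^ a := by positivity
  have h5 := PP_pos s hs
  have h6 := PP_le_one s hs
  rw [Real.norm_eq_abs]
  unfold gg
  rw [abs_le]
  constructor <;> linarith

/-- transfer from the integral part to the real number -/
theorem tr (s : Finset ℕ) (y : ℝ) (hy : 0 < y) (c R E : ℝ) (hc : |PP s + c| ≤ 1 + E)
    (h : |(cnt s ⌊y⌋₊ : ℝ) - ⌊y⌋₊ * PP s - c * ⌊y⌋₊| ≤ R) :
    |(cnt s ⌊y⌋₊ : ℝ) / y - PP s - c| ≤ (R + (1 + E)) / y := by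
  have h1 : (⌊y⌋₊ : ℝ) ≤ y := Nat.floor_le hy.le
  have h2 : y < ⌊y⌋₊ + 1 := Nat.lt_floor_add_one y
  have e1 : (cnt s ⌊y⌋₊ : ℝ) / y - PP s - c = ((cnt s ⌊y⌋₊ : ℝ) - ⌊y⌋₊ * PP s - c * ⌊y⌋₊ - (y - ⌊y⌋₊) * (PP s + c)) / y := by
    field_simp
    ring
  rw [e1, abs_div, abs_of_pos hy]
  apply div_le_div_of_nonneg_right _ hy.le
  have h3 : |(y - ⌊y⌋₊) * (PP s + c)| ≤ 1 + E := by
    rw [abs_mul]
    calc |y - ⌊y⌋₊| * |PP s + c| ≤ 1 * |PP s + c| := by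
          apply mul_le_mul_of_nonneg_right _ (abs_nonneg _)
          rw [abs_le]; constructor <;> linarith
      _ ≤ 1 + E := by rw [one_mul]; exact hc
  exact (abs_sub _ _).trans (add_le_add h h3)

theorem pow_sum_le (s : Finset ℕ) (m : ℝ) (hm : 1 ≤ m) (hs : (s.card : ℝ) ≤ m) (k : ℕ) :
    ∑ j ∈ range (k + 1), (s.card : ℝ) ^ j ≤ (k + 1) * m ^ k := by
  calc ∑ j ∈ range (k + 1), (s.card : ℝ) ^ j ≤ ∑ j ∈ range (k + 1), m ^ k := by
        refine sum_le_sum fun j hj => ?_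
        rw [mem_range] at hj
        exact (pow_le_pow_left₀ (Nat.cast_nonneg _) hs j).trans (pow_le_pow_right₀ hm (by omega))
    _ = (k + 1) * m ^ k := by rw [sum_const, card_range, nsmul_eq_mul]; push_cast; ring

theorem card_le (s : Finset ℕ) (hs : ∀ p ∈ s, p.Prime) (m : ℝ) (hm : 0 ≤ m) (h : ∀ p ∈ s, (p : ℝ) ≤ m) :
    (s.card : ℝ) ≤ m := by
  have h1 : s ⊆ Icc 1 ⌊m⌋₊ := by
    intro p hp
    rw [mem_Icc]
    exact ⟨(hs p hp).one_lt.le, Nat.le_floor (h p hp)⟩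
  have h2 := card_le_card h1
  rw [Nat.card_Icc, Nat.add_sub_cancel] at h2
  exact le_trans (by exact_mod_cast h2) (Nat.floor_le hm)

theorem ev_pow (x y C ε : ℝ) (hx : 0 ≤ x) (hxy : x < y) (hC : 0 ≤ C) (hε : 0 < ε) :
    ∀ᶠ L : ℝ in atTop, C * L ^ x + 2 ≤ ε * L ^ y := by
  have h1 : Tendsto (fun L : ℝ => L ^ (y - x)) atTop atTop := tendsto_rpow_atTop (by linarith)
  filter_upwards [h1.eventually_ge_atTop ((C + 2) / ε), eventually_ge_atTop (1 : ℝ)] with L h2 h3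
  have h4 : L ^ y = L ^ (y - x) * L ^ x := by rw [← Real.rpow_add (by linarith)]; congr 1; ring
  have h5 : 1 ≤ L ^ x := Real.one_le_rpow h3 hx
  rw [div_le_iff₀ hε] at h2
  rw [h4]
  calc C * L ^ x + 2 ≤ C * L ^ x + 2 * L ^ x := by linarith
    _ = (C + 2) * L ^ x := by ring
    _ ≤ (L ^ (y - x) * ε) * L ^ x := mul_le_mul_of_nonneg_right h2 (by linarith)
    _ = _ := by ring

theorem ee_le_one (s : Finset ℕ) (h : ee s 1 ≤ 1) (k : ℕ) : ee s k ≤ 1 := by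
  induction k with
  | zero => rw [ee_zero]
  | succ k ih =>
    have h1 := ee_up s k
    have h2 := ee_nonneg s (k + 1)
    have h3 := ee_nonneg s k
    have h4 := ee_nonneg s 1
    have h5 : ee s 1 * ee s k ≤ 1 := by nlinarith
    have h6 : (0 : ℝ) ≤ k := Nat.cast_nonneg k
    nlinarith

/-- the pointwise bounds for `gg` -/
theorem pw (a0 b η ε : ℝ) (k : ℕ) (hk : 2 ≤ k) (hη : 0 < η) (hb : η < b) (ha0 : 0 < a0) (hε : 0 < ε)
    (hkb : (k - 1 : ℝ) * (b / k) < a0) :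
    ∀ᶠ L : ℝ in atTop, ∀ s : Finset ℕ, (∀ p ∈ s, p.Prime) →
      (∀ p ∈ s, L ^ ((b - η) / k) < p ∧ (p : ℝ) ≤ L ^ (b / k)) → ee s 1 ≤ 1 →
      (∀ a, a0 ≤ a → a < b - η → |gg s L a - (-((-1) ^ k * ee s k))| ≤ ε + 2 * ee s (k + 1)) ∧
      (∀ a, a0 ≤ a → |gg s L a| ≤ (ε + 2 * ee s (k + 1)) + 2 * ee s k) ∧
      (∀ a, b + η < a → |gg s L a| ≤ ε + 2 * ee s (k + 1)) := by
  have hk0 : (0 : ℝ) < k := by exact_mod_cast (by omega : 0 < k)
  have hk1 : (0 : ℝ) ≤ (k : ℝ) - 1 := by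
    have : (1 : ℝ) ≤ k := by exact_mod_cast (by omega : 1 ≤ k)
    linarith
  have hb0 : 0 < b := by linarith
  have e1 := ev_pow ((k - 1 : ℝ) * (b / k)) a0 (k : ℝ) ε (by positivity) hkb hk0.le hε
  have e2 := ev_pow b (b + η) (k + 1 : ℝ) ε hb0.le (by linarith) (by positivity) hε
  filter_upwards [e1, e2, eventually_gt_atTop (1 : ℝ)] with L h1 h2 hL1 s hs hsr he1
  have hL : 1 ≤ L := hL1.le
  have hL0 : 0 < L := by linarith
  have hm : 1 ≤ L ^ (b / k) := Real.one_le_rpow hL (by positivity)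
  have hcard := card_le s hs (L ^ (b / k)) (by linarith) fun p hp => (hsr p hp).2
  obtain ⟨k', rfl⟩ : ∃ k', k = k' + 1 := ⟨k - 1, by omega⟩
  have hP0 := PP_pos s hs
  have hP1 := PP_le_one s hs
  have hek := ee_nonneg s (k' + 1)
  have hek1 := ee_le_one s he1 (k' + 1)
  have hek2 := ee_nonneg s (k' + 1 + 1)
  have hS1 : ∑ j ∈ range (k' + 1), (s.card : ℝ) ^ j + 2 ≤ ε * L ^ a0 := by
    have q1 := pow_sum_le s _ hm hcard k'
    have q2 : (L ^ (b / ((k' + 1 : ℕ) : ℝ))) ^ k' = L ^ ((((k' + 1 : ℕ) : ℝ) - 1) * (b / ((k' + 1 : ℕ) : ℝ))) := by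
      rw [← Real.rpow_natCast, ← Real.rpow_mul hL0.le]
      congr 1
      push_cast
      ring
    rw [q2] at q1
    push_cast at q1 h1 ⊢
    linarith
  have hS2 : ∑ j ∈ range (k' + 1 + 1), (s.card : ℝ) ^ j + 2 ≤ ε * L ^ (b + η) := by
    have q1 := pow_sum_le s _ hm hcard (k' + 1)
    have q2 : (L ^ (b / ((k' + 1 : ℕ) : ℝ))) ^ (k' + 1) = L ^ b := by
      rw [← Real.rpow_natCast, ← Real.rpow_mul hL0.le]
      congr 1
      field_simp
    rw [q2] at q1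
    push_cast at q1 h2 ⊢
    linarith
  have hyY : ∀ a : ℝ, (⌊L ^ a⌋₊ : ℝ) ≤ L ^ a := fun a => Nat.floor_le (Real.rpow_nonneg hL0.le a)
  have hP : |PP s + 0| ≤ 1 + 0 := by rw [add_zero, abs_of_pos hP0]; linarith
  refine ⟨fun a ha1 ha2 => ?_, fun a ha1 => ?_, fun a ha1 => ?_⟩
  · have hy : 0 < L ^ a := Real.rpow_pos_of_pos hL0 a
    have hya : L ^ a0 ≤ L ^ a := Real.rpow_le_rpow_of_exponent_le hL ha1
    have hz : 0 < L ^ ((b - η) / ((k' + 1 : ℕ) : ℝ)) := Real.rpow_pos_of_pos hL0 _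
    have h3 : (⌊L ^ a⌋₊ : ℝ) < (L ^ ((b - η) / ((k' + 1 : ℕ) : ℝ))) ^ (k' + 1) := by
      refine (hyY a).trans_lt ?_
      rw [← Real.rpow_natCast, ← Real.rpow_mul hL0.le]
      have h4 : (b - η) / ((k' + 1 : ℕ) : ℝ) * ((k' + 1 : ℕ) : ℝ) = b - η := by field_simp
      rw [h4]
      exact Real.rpow_lt_rpow_of_exponent_lt hL1 ha2
    have h4 := g2 s hs ⌊L ^ a⌋₊ (k' + 1) (by omega) _ hz (fun p hp => (hsr p hp).1.le) h3
    have h5 := tr s (L ^ a) hy (-((-1) ^ (k' + 1) * ee s (k' + 1)))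
      (∑ j ∈ range (k' + 1), (s.card : ℝ) ^ j + ⌊L ^ a⌋₊ * ee s (k' + 1 + 1)) 1 (by
        have q : |(-1 : ℝ) ^ (k' + 1) * ee s (k' + 1)| ≤ 1 := by
          rw [abs_mul, abs_pow, abs_neg, abs_one, one_pow, one_mul, abs_of_nonneg hek]
          exact hek1
        refine (abs_add_le _ _).trans ?_
        rw [abs_neg, abs_of_pos hP0]
        linarith) (by
        refine le_trans (le_of_eq ?_) h4
        congr 1
        ring)
    unfold gg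
    refine h5.trans ?_
    rw [div_le_iff₀ hy]
    have h6 : (⌊L ^ a⌋₊ : ℝ) * ee s (k' + 1 + 1) ≤ L ^ a * ee s (k' + 1 + 1) := mul_le_mul_of_nonneg_right (hyY a) hek2
    have h7 : ε * L ^ a0 ≤ ε * L ^ a := mul_le_mul_of_nonneg_left hya hε.le
    nlinarith
  · have hy : 0 < L ^ a := Real.rpow_pos_of_pos hL0 a
    have hya : L ^ a0 ≤ L ^ a := Real.rpow_le_rpow_of_exponent_le hL ha1
    have h4 := g1 s hs ⌊L ^ a⌋₊ (k' + 1) (by omega)
    have h5 := tr s (L ^ a) hy 0 (∑ j ∈ range (k' + 1), (s.card : ℝ) ^ j + 2 * (⌊L ^ a⌋₊ * ee s (k' + 1))) 0 hP (by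
        refine le_trans (le_of_eq ?_) h4
        congr 1
        ring)
    unfold gg
    rw [sub_zero] at h5
    refine h5.trans ?_
    rw [div_le_iff₀ hy]
    have h6 : (⌊L ^ a⌋₊ : ℝ) * ee s (k' + 1) ≤ L ^ a * ee s (k' + 1) := mul_le_mul_of_nonneg_right (hyY a) hek
    have h7 : ε * L ^ a0 ≤ ε * L ^ a := mul_le_mul_of_nonneg_left hya hε.le
    have h8 : 0 ≤ L ^ a * ee s (k' + 1 + 1) := mul_nonneg hy.le hek2
    nlinarith
  · have hy : 0 < L ^ a := Real.rpow_pos_of_pos hL0 a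
    have hya : L ^ (b + η) ≤ L ^ a := Real.rpow_le_rpow_of_exponent_le hL ha1.le
    have h4 := g1 s hs ⌊L ^ a⌋₊ (k' + 1 + 1) (by omega)
    have h5 := tr s (L ^ a) hy 0 (∑ j ∈ range (k' + 1 + 1), (s.card : ℝ) ^ j + 2 * (⌊L ^ a⌋₊ * ee s (k' + 1 + 1))) 0 hP (by
        refine le_trans (le_of_eq ?_) h4
        congr 1
        ring)
    unfold gg
    rw [sub_zero] at h5
    refine h5.trans ?_
    rw [div_le_iff₀ hy]
    have h6 : (⌊L ^ a⌋₊ : ℝ) * ee s (k' + 1 + 1) ≤ L ^ a * ee s (k' + 1 + 1) := mul_le_mul_of_nonneg_right (hyY a) hek2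
    have h7 : ε * L ^ (b + η) ≤ ε * L ^ a := mul_le_mul_of_nonneg_left hya hε.le
    nlinarith

end Pool.Agent.W5h22.JM
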