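import Pool.Agent.W5h22.JM.A
import Pool.Agent.W5h22.JM.E

/-! The mean value of `th (n + h)` over the multiples `n` of `Q`. -/

set_option autoImplicit false

open Finset Filter Topology
open Pool.Agent.H378R2 Pool.Agent.H510R2.Maier

namespace Pool.Agent.W5h22.JM

/-- total weight -/
noncomputable def NQ (X : ℝ) (Q : ℕ) : ℝ := ∑ n ∈ Icc 1 ⌊3 * X⌋₊, nu X Q 0 n

/-- weighted mean over the multiples of `Q` in `(X, 3 X)` -/
noncomputable def EX (X : ℝ) (Q : ℕ) (f : ℕ → ℝ) : ℝ := (∑ n ∈ Icc 1 ⌊3 * X⌋₊, nu X Q 0 n * f n) / NQ X Q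

theorem ev_err (B : ℕ) (ε : ℝ) (hε : 0 < ε) : ∀ᶠ X : ℝ in atTop,
    Real.exp (Real.log X / 700) * (4 * (2 * Real.log X) ^ B * (2 * Real.log X) +
      4 * Real.exp (Real.log X / 2) * (2 * Real.log X)) ≤ ε * X := by
  have h1 := (isLittleO_pow_exp_pos_mul_atTop (B + 1) (show (0 : ℝ) < 1 / 4 by norm_num)).bound
    (show (0 : ℝ) < ε / (4 * 2 ^ (B + 1) + 8) by positivity)
  filter_upwards [Real.tendsto_log_atTop.eventually h1, Real.tendsto_log_atTop.eventually_ge_atTop (1 : ℝ),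
    eventually_gt_atTop (0 : ℝ)] with X h2 h3 h4
  set L := Real.log X with hL
  have hX : X = Real.exp L := (Real.exp_log h4).symm
  rw [Real.norm_of_nonneg (by positivity), Real.norm_of_nonneg (Real.exp_pos _).le] at h2
  have e1 : 4 * (2 * L) ^ B * (2 * L) + 4 * Real.exp (L / 2) * (2 * L) ≤ (4 * 2 ^ (B + 1) + 8) * L ^ (B + 1) * Real.exp (L / 2) := by
    have a1 : 1 ≤ Real.exp (L / 2) := Real.one_le_exp (by positivity)
    have a2 : L ≤ L ^ (B + 1) := by
      calc L = L ^ 1 := (pow_one L).symm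
        _ ≤ L ^ (B + 1) := pow_le_pow_right₀ h3 (by omega)
    have a3 : 4 * (2 * L) ^ B * (2 * L) = 4 * 2 ^ (B + 1) * L ^ (B + 1) := by
      rw [mul_pow]; ring
    rw [a3]
    have a4 : 4 * 2 ^ (B + 1) * L ^ (B + 1) ≤ 4 * 2 ^ (B + 1) * L ^ (B + 1) * Real.exp (L / 2) := by
      apply le_mul_of_one_le_right _ a1
      positivity
    have a5 : 4 * Real.exp (L / 2) * (2 * L) ≤ 8 * L ^ (B + 1) * Real.exp (L / 2) := by
      have := mul_le_mul_of_nonneg_left a2 (Real.exp_pos (L / 2)).le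
      nlinarith
    linarith
  have hK : (0 : ℝ) < 4 * 2 ^ (B + 1) + 8 := by positivity
  calc Real.exp (L / 700) * (4 * (2 * L) ^ B * (2 * L) + 4 * Real.exp (L / 2) * (2 * L))
      ≤ Real.exp (L / 4) * ((4 * 2 ^ (B + 1) + 8) * L ^ (B + 1) * Real.exp (L / 2)) := by
        apply mul_le_mul _ e1 (by positivity) (Real.exp_pos _).le
        apply Real.exp_le_exp.2; linarith
    _ ≤ Real.exp (L / 4) * ((4 * 2 ^ (B + 1) + 8) * (ε / (4 * 2 ^ (B + 1) + 8) * Real.exp (1 / 4 * L)) * Real.exp (L / 2)) := by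
        gcongr
    _ = ε * (Real.exp (L / 4) * Real.exp (1 / 4 * L) * Real.exp (L / 2)) := by field_simp
    _ = ε * X := by
        rw [← Real.exp_add, ← Real.exp_add, hX]
        congr 2; ring

/-- the mean value -/
theorem mean_th (B : ℕ) (ε : ℝ) (hε : 0 < ε) : ∀ᶠ X : ℝ in atTop, ∃ (ps : ℕ) (S : Finset ℕ), GoodS X S ∧
    ∀ s : Finset ℕ, s ⊆ PW X S ps → 1 / 2 ≤ PP s → 0 < NQ X (∏ p ∈ s, p) ∧
      X / (40 * ((∏ p ∈ s, p : ℕ) : ℝ)) ≤ NQ X (∏ p ∈ s, p) ∧
      ∀ h : ℕ, (h : ℝ) ≤ (2 * Real.log X) ^ B →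
        |EX X (∏ p ∈ s, p) (fun n => th (n + h)) - (if h.Coprime (∏ p ∈ s, p) then (PP s)⁻¹ else 0)| ≤ ε := by
  obtain ⟨X1, hX1⟩ := bvrel_holds 1 0
  have ev1 := lphi_mphi (ε / 400) (by positivity)
  have ev2 := ev_err B (min (ε / 160) (1 / 2)) (by positivity)
  have ev3 := ev_err 0 (min (ε / 1600) (1 / 200)) (by positivity)
  have ev4 : ∀ᶠ X : ℝ in atTop, 400 / ε ≤ Real.log X := Real.tendsto_log_atTop.eventually_ge_atTop _
  filter_upwards [ev1, ev2, ev3, ev4, eventually_ge_atTop X1, eventually_ge_atTop (40 : ℝ),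
    Real.tendsto_log_atTop.eventually_ge_atTop (2 : ℝ)] with X h1 h2 h3 h4 h5 h6 h7
  obtain ⟨ps, S, _, hS, hbv⟩ := hX1 X h5
  refine ⟨ps, S, hS, fun s hs hPs => ?_⟩
  have hXpos : 0 < X := by linarith
  have hsp : ∀ p ∈ s, p.Prime := fun p hp => (mem_PW.1 (hs hp)).2.1
  set Q := ∏ p ∈ s, p with hQ
  set M := ∏ p ∈ PW X S ps \ s, p with hM
  have hQM : Q * M = WW X S ps := by
    rw [hQ, hM, mul_comm]
    exact prod_sdiff hs
  have hQ0 : 0 < Q := prod_ne s hsp (Subset.refl s)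
  have hM0 : 0 < M := prod_pos fun p hp => (mem_PW.1 (Finset.mem_sdiff.1 hp).1).2.1.pos
  have hc : Q.Coprime M := by
    apply Nat.Coprime.prod_left
    intro p hp
    apply Nat.Coprime.prod_right
    intro r hr
    rw [Finset.mem_sdiff] at hr
    rw [Nat.coprime_primes (hsp p hp) (mem_PW.1 hr.1).2.1]
    rintro rfl
    exact hr.2 hp
  have hWle : (WW X S ps : ℝ) ≤ Real.exp (Real.log X / 700) := WW_le X (by linarith) S ps
  set L := Real.log X with hL
  have hL0 : 0 < L := by linarith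
  set E := X / ((Nat.totient (WW X S ps) : ℝ) * L ^ 1) with hE
  have hEb := single_bound X (WW X S ps) ps 1 (by linarith) E hbv
  have hWp : ∀ p : ℕ, p.Prime → p ∣ Q * M → (p : ℝ) ≤ X := by
    intro p hp hpW
    rw [hQM] at hpW
    have h8 := (mem_PW.1 ((prime_dvd_WW hp).1 hpW)).1
    have h9 : (p : ℝ) ≤ yy X := by exact_mod_cast h8
    have h10 : (yy X : ℝ) ≤ L / 1000 := Nat.floor_le (by positivity)
    have h11 : L ≤ X := by
      have := Real.add_one_le_exp L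
      rw [hL, Real.exp_log hXpos] at this
      linarith
    linarith
  have hexpL : Real.exp L = X := Real.exp_log hXpos
  have hsqrt : Real.sqrt X = Real.exp (L / 2) := by
    rw [← hexpL, Real.sqrt_eq_iff_mul_self_eq (Real.exp_pos _).le (Real.exp_pos _).le, ← Real.exp_add]
    congr 1; ring
  have hl4 : Real.log (4 * X) ≤ 2 * L := by
    rw [Real.log_mul (by norm_num) hXpos.ne']
    have : Real.log 4 ≤ 2 := by
      rw [show (4 : ℝ) = 2 ^ 2 by norm_num, Real.log_pow]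
      have := Real.log_two_lt_d9
      push_cast; linarith
    linarith
  have hl40 : 0 ≤ Real.log (4 * X) := Real.log_nonneg (by linarith)
  have hqr : (0 : ℝ) < Q := by exact_mod_cast hQ0
  have hMr : (0 : ℝ) < M := by exact_mod_cast hM0
  have hM1 : (1 : ℝ) ≤ M := by exact_mod_cast hM0
  have hφ0 : (0 : ℝ) < Q.totient := by exact_mod_cast Nat.totient_pos.2 hQ0
  have hφM0 : (0 : ℝ) < M.totient := by exact_mod_cast Nat.totient_pos.2 hM0
  have hWr : ((WW X S ps : ℕ) : ℝ) = Q * M := by rw [← hQM]; push_cast; ring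
  have hφW : ((WW X S ps).totient : ℝ) = Q.totient * M.totient := by
    rw [← hQM, Nat.totient_mul hc]; push_cast; ring
  have hPP : (PP s)⁻¹ = Q / Q.totient := by
    unfold PP
    rw [← hQ, inv_div]
  have hPP2 : (Q : ℝ) / Q.totient ≤ 2 := by
    rw [← hPP]
    calc (PP s)⁻¹ ≤ (1 / 2 : ℝ)⁻¹ := inv_anti₀ (by norm_num) hPs
      _ = 2 := by norm_num
  have hQW : (Q : ℝ) ≤ Real.exp (L / 700) := by
    refine le_trans ?_ hWle
    rw [hWr]
    nlinarith
  have hexp1 : 1 ≤ 4 * (2 * L) ^ 0 * (2 * L) + 4 * Real.exp (L / 2) * (2 * L) := by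
    have : 0 ≤ 4 * Real.exp (L / 2) * (2 * L) := by positivity
    rw [pow_zero]; linarith
  have hQX : (Q : ℝ) ≤ min (ε / 1600) (1 / 200) * X := by
    refine hQW.trans (le_trans ?_ h3)
    exact le_mul_of_one_le_right (Real.exp_pos _).le hexp1
  have hQX1 : (Q : ℝ) ≤ ε / 1600 * X := hQX.trans (mul_le_mul_of_nonneg_right (min_le_left _ _) hXpos.le)
  have hQX2 : (Q : ℝ) ≤ 1 / 200 * X := hQX.trans (mul_le_mul_of_nonneg_right (min_le_right _ _) hXpos.le)
  have hMPhi := MPhi_ge X h6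
  have hnu := sum_nu X (by linarith) Q 0 hQ0 (by linarith)
  set N1 := NQ X Q with hN1
  have hnu' : |N1 - MPhi X * (1 / (Q : ℝ))| ≤ 5 := hnu
  rw [abs_le] at hnu'
  have hMq : X / (20 * Q) ≤ MPhi X * (1 / (Q : ℝ)) := by
    rw [mul_one_div, div_le_div_iff₀ (by positivity) hqr]
    nlinarith
  have h5q : 5 ≤ X / (40 * Q) := by
    rw [le_div_iff₀ (by positivity)]
    linarith
  have hN1lo : X / (40 * Q) ≤ N1 := by
    have : X / (20 * (Q : ℝ)) = X / (40 * Q) + X / (40 * Q) := by field_simp; norm_num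
    linarith [hnu'.1]
  have hXq : 0 < X / (40 * (Q : ℝ)) := by positivity
  have hN10 : 0 < N1 := lt_of_lt_of_le hXq hN1lo
  refine ⟨hN10, hN1lo, fun h hh => ?_⟩
  have hhX : (h : ℝ) ≤ X / 2 := by
    have e1 : (2 * L) ^ B ≤ Real.exp (L / 700) * (4 * (2 * L) ^ B * (2 * L) + 4 * Real.exp (L / 2) * (2 * L)) := by
      have a1 : 1 ≤ Real.exp (L / 700) := Real.one_le_exp (by positivity)
      have a2 : 0 ≤ 4 * Real.exp (L / 2) * (2 * L) := by positivity
      have a3 : (0 : ℝ) < (2 * L) ^ B := by positivity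
      have a4 : (2 * L) ^ B ≤ 4 * (2 * L) ^ B * (2 * L) := by nlinarith
      calc (2 * L) ^ B ≤ 1 * (4 * (2 * L) ^ B * (2 * L) + 4 * Real.exp (L / 2) * (2 * L)) := by linarith
        _ ≤ _ := by apply mul_le_mul_of_nonneg_right a1; positivity
    have e2 : min (ε / 160) (1 / 2) * X ≤ 1 / 2 * X := mul_le_mul_of_nonneg_right (min_le_right _ _) hXpos.le
    linarith
  have hmain := all_mult X (by linarith) Q M h hQ0 hM0 hc hhX hWp E (by rw [hQM]; exact hEb)
  set u := ∑ n ∈ Icc 1 ⌊3 * X⌋₊, nu X Q 0 n * th (n + h) with hu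
  -- the size of the errors
  have r1 : (M.totient : ℝ) * E ≤ ε / 4 * (X / (40 * Q)) := by
    have e1 : (M.totient : ℝ) * E = X / (Q.totient * L) := by
      rw [hE, hφW, pow_one]; field_simp
    rw [e1, div_le_iff₀ (by positivity)]
    have e2 : ε / 4 * (X / (40 * (Q : ℝ))) * (Q.totient * L) = X * (ε * L / 160 * (Q.totient / Q)) := by field_simp; norm_num
    rw [e2]
    have e3 : 1 / 2 ≤ (Q.totient : ℝ) / Q := hPs
    have e4 : 400 ≤ ε * L := by
      rw [div_le_iff₀ hε] at h4; linarith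
    have e5 : 1 ≤ ε * L / 160 * (Q.totient / Q) := by
      calc (1 : ℝ) ≤ 400 / 160 * (1 / 2) := by norm_num
        _ ≤ ε * L / 160 * (Q.totient / Q) := by gcongr
    nlinarith
  have r2 : (M : ℝ) * (4 * h * Real.log (4 * X) + 4 * Real.sqrt X * Real.log (4 * X)) ≤ ε / 4 * (X / (40 * Q)) := by
    have e1 : ε / 4 * (X / (40 * (Q : ℝ))) = (ε / 160 * X) / Q := by field_simp; norm_num
    rw [e1, le_div_iff₀ hqr]
    calc (M : ℝ) * (4 * h * Real.log (4 * X) + 4 * Real.sqrt X * Real.log (4 * X)) * Q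
        = (Q * M) * (4 * h * Real.log (4 * X) + 4 * Real.sqrt X * Real.log (4 * X)) := by ring
      _ ≤ Real.exp (L / 700) * (4 * (2 * L) ^ B * (2 * L) + 4 * Real.exp (L / 2) * (2 * L)) := by
          rw [hsqrt, ← hWr]
          gcongr
      _ ≤ _ := h2.trans (mul_le_mul_of_nonneg_right (min_le_left _ _) hXpos.le)
  have r3 : |(if h.Coprime Q then LPhi X * (1 / (Nat.totient Q : ℝ)) else 0) - N1 * (if h.Coprime Q then (PP s)⁻¹ else 0)| ≤
      ε / 2 * (X / (40 * Q)) := by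
    split_ifs with hq
    · rw [hPP]
      have e1 : LPhi X * (1 / (Q.totient : ℝ)) - N1 * (Q / Q.totient) =
          ((LPhi X - MPhi X) - Q * (N1 - MPhi X * (1 / Q))) / Q.totient := by field_simp; ring
      rw [e1, abs_div, abs_of_pos hφ0, div_le_iff₀ hφ0]
      have e2 : |Q * (N1 - MPhi X * (1 / (Q : ℝ)))| ≤ Q * 5 := by
        rw [abs_mul, abs_of_pos hqr]
        exact mul_le_mul_of_nonneg_left hnu hqr.le
      have e3 : |(LPhi X - MPhi X) - Q * (N1 - MPhi X * (1 / (Q : ℝ)))| ≤ ε / 400 * X + Q * 5 :=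
        (abs_sub _ _).trans (add_le_add h1 e2)
      refine e3.trans ?_
      have e4 : ε / 2 * (X / (40 * (Q : ℝ))) * Q.totient = ε * X / 80 * (Q.totient / Q) := by field_simp; norm_num
      rw [e4]
      have e5 : 1 / 2 ≤ (Q.totient : ℝ) / Q := hPs
      have e6 : ε * X / 80 * (1 / 2) ≤ ε * X / 80 * (Q.totient / Q) := mul_le_mul_of_nonneg_left e5 (by positivity)
      have e7 : 0 < ε * X := by positivity
      linarith
    · rw [mul_zero, sub_zero, abs_zero]
      positivity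
  have hfin : |u - N1 * (if h.Coprime Q then (PP s)⁻¹ else 0)| ≤ ε * N1 := by
    have e1 := (abs_sub_le u (if h.Coprime Q then LPhi X * (1 / (Nat.totient Q : ℝ)) else 0)
      (N1 * (if h.Coprime Q then (PP s)⁻¹ else 0)))
    have e2 : ε * (X / (40 * (Q : ℝ))) ≤ ε * N1 := mul_le_mul_of_nonneg_left hN1lo hε.le
    linarith
  have e1 : EX X Q (fun n => th (n + h)) - (if h.Coprime Q then (PP s)⁻¹ else 0) =
      (u - N1 * (if h.Coprime Q then (PP s)⁻¹ else 0)) / N1 := by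
    unfold EX
    rw [sub_div, mul_div_cancel_left₀ _ hN10.ne']
  rw [e1, abs_div, abs_of_pos hN10, div_le_iff₀ hN10]
  exact hfin

end Pool.Agent.W5h22.JM
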