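import Mathlib

/-! Inclusion and exclusion for the integers without prime factors in a finite set of primes. -/

set_option autoImplicit false

open Finset

namespace Pool.Agent.W5h22.JM

/-- the number of `h ≤ Y` without divisors in `s` -/
def cnt (s : Finset ℕ) (Y : ℕ) : ℕ := ((Ioc 0 Y).filter (fun h => ∀ p ∈ s, ¬ p ∣ h)).card

/-- elementary symmetric functions of the reciprocals -/
noncomputable def ee (s : Finset ℕ) (j : ℕ) : ℝ := ∑ T ∈ s.powersetCard j, (∏ p ∈ T, (p : ℝ))⁻¹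

theorem choose_alt (w J : ℕ) (hJ : 1 ≤ J) :
    |(if w = 0 then (1 : ℝ) else 0) - ∑ j ∈ range J, (-1 : ℝ) ^ j * (w.choose j : ℝ)| ≤ (w.choose J : ℝ) := by
  obtain ⟨m, rfl⟩ : ∃ m, J = m + 1 := ⟨J - 1, by omega⟩
  cases w with
  | zero =>
    rw [if_pos rfl, sum_range_succ']
    simp
  | succ n =>
    have h1 := @Int.alternating_sum_range_choose_eq_choose n m
    have h2 : ∑ j ∈ range (m + 1), (-1 : ℝ) ^ j * ((n + 1).choose j : ℝ) = (-1) ^ m * (n.choose m : ℝ) := by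
      exact_mod_cast h1
    rw [if_neg (by omega), h2, zero_sub, abs_neg, abs_mul, abs_pow, abs_neg, abs_one, one_pow, one_mul,
      abs_of_nonneg (Nat.cast_nonneg _), Nat.choose_succ_succ]
    push_cast
    have : (0 : ℝ) ≤ (n.choose (m + 1) : ℝ) := Nat.cast_nonneg _
    linarith

theorem choose_sum (s : Finset ℕ) (hs : ∀ p ∈ s, p.Prime) (Y j : ℕ) :
    ∑ h ∈ Ioc 0 Y, ((((s.filter (fun p => p ∣ h)).card).choose j : ℕ) : ℝ) =
      ∑ T ∈ s.powersetCard j, ((Y / ∏ p ∈ T, p : ℕ) : ℝ) := by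
  have h1 : ∀ h ∈ Ioc 0 Y, ((((s.filter (fun p => p ∣ h)).card).choose j : ℕ) : ℝ) =
      ∑ T ∈ s.powersetCard j, if (∏ p ∈ T, p) ∣ h then (1 : ℝ) else 0 := by
    intro h hh
    rw [← sum_filter, sum_const, nsmul_eq_mul, mul_one, ← card_powersetCard]
    congr 2
    ext T
    simp only [mem_powersetCard, mem_filter]
    constructor
    · rintro ⟨h2, h3⟩
      refine ⟨⟨fun p hp => (mem_filter.1 (h2 hp)).1, h3⟩, ?_⟩
      apply Finset.prod_primes_dvd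
      · intro p hp
        exact (hs p (mem_filter.1 (h2 hp)).1).prime
      · intro p hp
        exact (mem_filter.1 (h2 hp)).2
    · rintro ⟨⟨h2, h3⟩, h4⟩
      refine ⟨fun p hp => mem_filter.2 ⟨h2 hp, ?_⟩, h3⟩
      exact (Finset.dvd_prod_of_mem (fun p => p) hp).trans h4
  rw [sum_congr rfl h1, sum_comm]
  refine sum_congr rfl fun T _ => ?_
  rw [← sum_filter, sum_const, nsmul_eq_mul, mul_one, Nat.Ioc_filter_dvd_card_eq_div]

theorem cnt_eq (s : Finset ℕ) (Y : ℕ) :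
    (cnt s Y : ℝ) = ∑ h ∈ Ioc 0 Y, if (s.filter (fun p => p ∣ h)).card = 0 then (1 : ℝ) else 0 := by
  unfold cnt
  rw [card_filter]
  push_cast
  refine sum_congr rfl fun h _ => ?_
  congr 1
  rw [card_eq_zero, filter_eq_empty_iff]

/-- Bonferroni -/
theorem bonf (s : Finset ℕ) (hs : ∀ p ∈ s, p.Prime) (Y J : ℕ) (hJ : 1 ≤ J) :
    |(cnt s Y : ℝ) - ∑ j ∈ range J, (-1 : ℝ) ^ j * ∑ T ∈ s.powersetCard j, ((Y / ∏ p ∈ T, p : ℕ) : ℝ)| ≤
      ∑ T ∈ s.powersetCard J, ((Y / ∏ p ∈ T, p : ℕ) : ℝ) := by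
  rw [cnt_eq, ← choose_sum s hs Y J]
  have h1 : ∑ j ∈ range J, (-1 : ℝ) ^ j * ∑ T ∈ s.powersetCard j, ((Y / ∏ p ∈ T, p : ℕ) : ℝ) =
      ∑ h ∈ Ioc 0 Y, ∑ j ∈ range J, (-1 : ℝ) ^ j * ((((s.filter (fun p => p ∣ h)).card).choose j : ℕ) : ℝ) := by
    rw [sum_comm]
    refine sum_congr rfl fun j _ => ?_
    rw [← mul_sum, choose_sum s hs Y j]
  rw [h1, ← sum_sub_distrib]
  refine (abs_sum_le_sum_abs _ _).trans (sum_le_sum fun h _ => ?_)
  exact choose_alt _ J hJ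

theorem prod_ne (s : Finset ℕ) (hs : ∀ p ∈ s, p.Prime) {T : Finset ℕ} (hT : T ⊆ s) : 0 < ∏ p ∈ T, p :=
  prod_pos fun p hp => (hs p (hT hp)).pos

theorem ee_nonneg (s : Finset ℕ) (j : ℕ) : 0 ≤ ee s j :=
  sum_nonneg fun T _ => inv_nonneg.2 (prod_nonneg fun p _ => Nat.cast_nonneg p)

theorem div_le_ee (s : Finset ℕ) (Y j : ℕ) :
    ∑ T ∈ s.powersetCard j, ((Y / ∏ p ∈ T, p : ℕ) : ℝ) ≤ Y * ee s j := by
  unfold ee
  rw [mul_sum]
  refine sum_le_sum fun T _ => ?_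
  have := @Nat.cast_div_le ℝ _ _ _ Y (∏ p ∈ T, p)
  rw [div_eq_mul_inv] at this
  push_cast at this
  exact this

theorem div_ge_ee (s : Finset ℕ) (Y j : ℕ) :
    Y * ee s j - (s.card : ℝ) ^ j ≤ ∑ T ∈ s.powersetCard j, ((Y / ∏ p ∈ T, p : ℕ) : ℝ) := by
  have h1 : Y * ee s j - ((s.powersetCard j).card : ℝ) ≤ ∑ T ∈ s.powersetCard j, ((Y / ∏ p ∈ T, p : ℕ) : ℝ) := by
    unfold ee
    rw [mul_sum, card_eq_sum_ones]
    push_cast
    rw [← sum_sub_distrib]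
    refine sum_le_sum fun T _ => ?_
    rcases Nat.eq_zero_or_pos (∏ p ∈ T, p) with h0 | h0
    · have : (∏ p ∈ T, (p : ℝ)) = 0 := by rw [← Nat.cast_prod, h0, Nat.cast_zero]
      rw [this, h0]
      simp
    · have h2 := Nat.lt_floor_add_one ((Y : ℝ) / ((∏ p ∈ T, p : ℕ) : ℝ))
      rw [Nat.floor_div_eq_div] at h2
      rw [div_eq_mul_inv] at h2
      push_cast at h2 ⊢
      linarith
  have h2 : ((s.powersetCard j).card : ℝ) ≤ (s.card : ℝ) ^ j := by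
    rw [card_powersetCard]
    exact_mod_cast Nat.choose_le_pow _ _
  linarith

theorem cop_iff (s : Finset ℕ) (hs : ∀ p ∈ s, p.Prime) (h : ℕ) :
    (∀ p ∈ s, ¬ p ∣ h) ↔ h.Coprime (∏ p ∈ s, p) := by
  rw [Nat.coprime_prod_right_iff]
  constructor
  · intro h1 p hp
    exact ((Nat.Prime.coprime_iff_not_dvd (hs p hp)).2 (h1 p hp)).symm
  · intro h1 p hp
    exact (Nat.Prime.coprime_iff_not_dvd (hs p hp)).1 (h1 p hp).symm

/-- the product over all of `s` -/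
theorem bonf_prod (s : Finset ℕ) (hs : ∀ p ∈ s, p.Prime) (J : ℕ) (hJ : 1 ≤ J) :
    |((∏ p ∈ s, p : ℕ).totient : ℝ) / (∏ p ∈ s, p : ℕ) - ∑ j ∈ range J, (-1 : ℝ) ^ j * ee s j| ≤ ee s J := by
  have hQ : 0 < ∏ p ∈ s, p := prod_ne s hs (Subset.refl s)
  have hQr : (0 : ℝ) < ((∏ p ∈ s, p : ℕ) : ℝ) := by exact_mod_cast hQ
  have h1 := bonf s hs (∏ p ∈ s, p) J hJ
  have h2 : ∀ j, ∑ T ∈ s.powersetCard j, (((∏ p ∈ s, p) / ∏ p ∈ T, p : ℕ) : ℝ) = ((∏ p ∈ s, p : ℕ) : ℝ) * ee s j := by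
    intro j
    unfold ee
    rw [mul_sum]
    refine sum_congr rfl fun T hT => ?_
    have hT' := (mem_powersetCard.1 hT).1
    have hd : (∏ p ∈ T, p) ∣ ∏ p ∈ s, p := prod_dvd_prod_of_subset _ _ _ hT'
    have hT0 := prod_ne s hs hT'
    rw [Nat.cast_div hd (by exact_mod_cast hT0.ne'), div_eq_mul_inv]
    push_cast
    ring
  have h3 : (cnt s (∏ p ∈ s, p) : ℝ) = ((∏ p ∈ s, p : ℕ).totient : ℝ) := by
    congr 1
    unfold cnt
    rw [← Nat.filter_coprime_Ico_eq_totient (∏ p ∈ s, p) 1]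
    congr 1
    ext h
    rw [mem_filter, mem_filter, mem_Ioc, mem_Ico, cop_iff s hs]
    constructor
    · rintro ⟨h4, h5⟩
      exact ⟨by omega, h5.symm⟩
    · rintro ⟨h4, h5⟩
      exact ⟨by omega, h5.symm⟩
  rw [h3, h2] at h1
  have h4 : ∑ j ∈ range J, (-1 : ℝ) ^ j * ∑ T ∈ s.powersetCard j, (((∏ p ∈ s, p) / ∏ p ∈ T, p : ℕ) : ℝ) =
      ((∏ p ∈ s, p : ℕ) : ℝ) * ∑ j ∈ range J, (-1 : ℝ) ^ j * ee s j := by
    rw [mul_sum]
    refine sum_congr rfl fun j _ => ?_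
    rw [h2]; ring
  rw [h4] at h1
  have h5 : ((∏ p ∈ s, p : ℕ).totient : ℝ) / (∏ p ∈ s, p : ℕ) - ∑ j ∈ range J, (-1 : ℝ) ^ j * ee s j =
      (((∏ p ∈ s, p : ℕ).totient : ℝ) - ((∏ p ∈ s, p : ℕ) : ℝ) * ∑ j ∈ range J, (-1 : ℝ) ^ j * ee s j) / (∏ p ∈ s, p : ℕ) := by
    field_simp
  rw [h5, abs_div, abs_of_pos hQr, div_le_iff₀ hQr]
  linarith

theorem ee_rec (s : Finset ℕ) (k : ℕ) :
    ((k : ℝ) + 1) * ee s (k + 1) = ∑ T ∈ s.powersetCard k, ∑ p ∈ s \ T, (∏ q ∈ T, (q : ℝ))⁻¹ * (p : ℝ)⁻¹ := by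
  have h1 : ((k : ℝ) + 1) * ee s (k + 1) = ∑ T ∈ s.powersetCard (k + 1), ∑ _p ∈ T, (∏ q ∈ T, (q : ℝ))⁻¹ := by
    unfold ee
    rw [mul_sum]
    refine sum_congr rfl fun T hT => ?_
    rw [sum_const, (mem_powersetCard.1 hT).2, nsmul_eq_mul]
    push_cast
    ring
  rw [h1, sum_sigma', sum_sigma']
  refine sum_bij' (fun x _ => ⟨x.1.erase x.2, x.2⟩) (fun x _ => ⟨insert x.2 x.1, x.2⟩) ?_ ?_ ?_ ?_ ?_
  · rintro ⟨T, p⟩ h
    rw [mem_sigma, mem_powersetCard] at h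
    rw [mem_sigma, mem_powersetCard]
    obtain ⟨⟨h2, h3⟩, h4⟩ := h
    simp only at h2 h3 h4 ⊢
    refine ⟨⟨(erase_subset _ _).trans h2, ?_⟩, Finset.mem_sdiff.2 ⟨h2 h4, notMem_erase _ _⟩⟩
    rw [card_erase_of_mem h4, h3]; rfl
  · rintro ⟨T, p⟩ h
    rw [mem_sigma, mem_powersetCard] at h
    rw [mem_sigma, mem_powersetCard]
    obtain ⟨⟨h2, h3⟩, h4⟩ := h
    simp only at h2 h3 h4 ⊢
    rw [Finset.mem_sdiff] at h4
    refine ⟨⟨insert_subset h4.1 h2, ?_⟩, mem_insert_self _ _⟩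
    rw [card_insert_of_notMem h4.2, h3]
  · rintro ⟨T, p⟩ h
    rw [mem_sigma] at h
    simp only at h ⊢
    rw [insert_erase h.2]
  · rintro ⟨T, p⟩ h
    rw [mem_sigma, Finset.mem_sdiff] at h
    simp only at h ⊢
    rw [erase_insert h.2.2]
  · rintro ⟨T, p⟩ h
    rw [mem_sigma] at h
    simp only at h ⊢
    rw [← mul_inv, mul_comm, mul_prod_erase T (fun q : ℕ => (q : ℝ)) h.2]

theorem ee_zero (s : Finset ℕ) : ee s 0 = 1 := by
  unfold ee; simp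

theorem ee_one (s : Finset ℕ) : ee s 1 = ∑ p ∈ s, (p : ℝ)⁻¹ := by
  unfold ee
  rw [powersetCard_one, sum_map]
  refine sum_congr rfl fun p _ => ?_
  simp

theorem ee_up (s : Finset ℕ) (k : ℕ) : ((k : ℝ) + 1) * ee s (k + 1) ≤ ee s 1 * ee s k := by
  rw [ee_rec, ee_one]
  unfold ee
  rw [mul_sum]
  refine sum_le_sum fun T _ => ?_
  rw [← mul_sum, mul_comm]
  apply mul_le_mul_of_nonneg_right _ (inv_nonneg.2 (prod_nonneg fun p _ => Nat.cast_nonneg p))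
  exact sum_le_sum_of_subset_of_nonneg sdiff_subset fun p _ _ => inv_nonneg.2 (Nat.cast_nonneg p)

theorem ee_low (s : Finset ℕ) (k : ℕ) (z : ℝ) (hz : 0 < z) (hs : ∀ p ∈ s, z ≤ p) :
    (ee s 1 - k / z) * ee s k ≤ ((k : ℝ) + 1) * ee s (k + 1) := by
  rw [ee_rec, ee_one]
  unfold ee
  rw [mul_sum]
  refine sum_le_sum fun T hT => ?_
  rw [mem_powersetCard] at hT
  rw [← mul_sum, mul_comm]
  apply mul_le_mul_of_nonneg_left _ (inv_nonneg.2 (prod_nonneg fun p _ => Nat.cast_nonneg p))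
  have h1 := sum_sdiff (f := fun p : ℕ => (p : ℝ)⁻¹) hT.1
  have h2 : ∑ p ∈ T, (p : ℝ)⁻¹ ≤ k / z := by
    calc ∑ p ∈ T, (p : ℝ)⁻¹ ≤ ∑ _p ∈ T, z⁻¹ := sum_le_sum fun p hp => inv_anti₀ hz (hs p (hT.1 hp))
      _ = k / z := by rw [sum_const, hT.2, nsmul_eq_mul, div_eq_mul_inv]
  linarith

theorem ee_ge (s : Finset ℕ) (k : ℕ) (z : ℝ) (hz : 0 < z) (hs : ∀ p ∈ s, z ≤ p) (hk : k / z ≤ ee s 1 / 2) :
    (ee s 1 / 2) ^ k / k.factorial ≤ ee s k := by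
  have hν : 0 ≤ ee s 1 := ee_nonneg s 1
  have h : ∀ j ≤ k, (ee s 1 / 2) ^ j / j.factorial ≤ ee s j := by
    intro j
    induction j with
    | zero => intro _; rw [ee_zero]; simp
    | succ j ih =>
      intro hj
      have h1 := ih (by omega)
      have h2 := ee_low s j z hz hs
      have h3 : (j : ℝ) / z ≤ k / z := by
        apply div_le_div_of_nonneg_right _ hz.le
        exact_mod_cast (by omega : j ≤ k)
      have h4 : ee s 1 / 2 * ee s j ≤ ((j : ℝ) + 1) * ee s (j + 1) := by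
        refine le_trans ?_ h2
        exact mul_le_mul_of_nonneg_right (by linarith) (ee_nonneg s j)
      have h5 : (ee s 1 / 2) * ((ee s 1 / 2) ^ j / j.factorial) ≤ ((j : ℝ) + 1) * ee s (j + 1) :=
        (mul_le_mul_of_nonneg_left h1 (by linarith)).trans h4
      have hj0 : (0 : ℝ) < (j : ℝ) + 1 := by positivity
      rw [Nat.factorial_succ]
      push_cast
      rw [div_le_iff₀ (by positivity)]
      have hf : (0 : ℝ) < (j.factorial : ℝ) := by exact_mod_cast Nat.factorial_pos j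
      rw [mul_div_assoc', div_le_iff₀ hf] at h5
      rw [pow_succ]
      linarith
  exact h k le_rfl

end Pool.Agent.W5h22.JM
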