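import Pool.Agent.W5h22.JM.E

/-! The model theorem for two different measures. -/

set_option autoImplicit false

open Finset Filter Topology MeasureTheory

namespace Pool.Agent.W5h22.JM

theorem log_lim (b : ℝ) (hb : 0 < b) : Tendsto (fun η : ℝ => Real.log (b / (b - η))) (𝓝[>] 0) (𝓝 0) := by
  have h1 : ContinuousAt (fun η : ℝ => Real.log (b / (b - η))) 0 := by
    apply ContinuousAt.log
    · apply ContinuousAt.div continuousAt_const (continuousAt_const.sub continuousAt_id)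
      simpa using hb.ne'
    · simp only [sub_zero]
      rw [div_self hb.ne']
      exact one_ne_zero
  have h2 : Tendsto (fun η : ℝ => Real.log (b / (b - η))) (𝓝 0) (𝓝 (Real.log (b / (b - 0)))) := h1
  rw [sub_zero, div_self hb.ne', Real.log_one] at h2
  exact h2.mono_left nhdsWithin_le_nhds

theorem shift_lim (b : ℝ) : Tendsto (fun η : ℝ => b - η) (𝓝[>] 0) (𝓝[<] b) := by
  rw [tendsto_nhdsWithin_iff]
  constructor
  · have h1 : Tendsto (fun η : ℝ => b - η) (𝓝 0) (𝓝 (b - 0)) := (continuous_const.sub continuous_id).tendsto 0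
    rw [sub_zero] at h1
    exact h1.mono_left nhdsWithin_le_nhds
  · filter_upwards [self_mem_nhdsWithin] with η hη
    simp only [Set.mem_Ioi] at hη
    simp only [Set.mem_Iio]
    linarith

theorem cX_eq (s : Finset ℕ) (hs : ∀ p ∈ s, p.Prime) (L a : ℝ) (hL : 0 < L) :
    cX s L a = gg s L a / PP s + 1 := by
  have h1 := PP_pos s hs
  have h2 : 0 < L ^ a := Real.rpow_pos_of_pos hL a
  unfold cX gg
  field_simp
  ring

theorem cX_int (s : Finset ℕ) (hs : ∀ p ∈ s, p.Prime) (L : ℝ) (hL : 0 < L) (ρ : Measure ℝ) [IsFiniteMeasure ρ] :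
    Integrable (cX s L) ρ := by
  have : cX s L = fun a => gg s L a / PP s + 1 := funext fun a => cX_eq s hs L a hL
  rw [this]
  exact ((gg_int s hs L hL ρ).div_const _).add (integrable_const 1)

theorem cX_integral (s : Finset ℕ) (hs : ∀ p ∈ s, p.Prime) (L : ℝ) (hL : 0 < L) (ρ : Measure ℝ) [IsFiniteMeasure ρ] :
    ∫ a, cX s L a ∂ρ = (∫ a, gg s L a ∂ρ) / PP s + ρ.real Set.univ := by
  have : (fun a => cX s L a) = fun a => gg s L a / PP s + 1 := funext fun a => cX_eq s hs L a hL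
  rw [this, integral_add ((gg_int s hs L hL ρ).div_const _) (integrable_const 1), integral_div, integral_const]
  simp

/-- **the model theorem** -/
theorem model (μ ν : Measure ℝ) [IsFiniteMeasure μ] [IsFiniteMeasure ν] (A : ℝ) (hA : 1 < A)
    (hμ : μ (Set.Iio A) = 0) (hν : ν (Set.Iio A) = 0) (hne : μ ≠ ν) (ε0 : ℝ) (hε0' : 0 < ε0) :
    ∃ u v δ : ℝ, 0 < u ∧ u < v ∧ v < 1 ∧ v < ε0 ∧ 0 < δ ∧ Real.log (v / u) ≤ 1 / 4 ∧
      ∀ᶠ L : ℝ in atTop, ∀ s : Finset ℕ, (∀ p ∈ s, p.Prime) →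
        (∀ p ∈ s, L ^ u < p ∧ (p : ℝ) ≤ L ^ v) → Real.log (v / u) / 2 ≤ ee s 1 → ee s 1 ≤ 2 * Real.log (v / u) →
        μ.real Set.univ - ν.real Set.univ + δ ≤ ∫ a, cX s L a ∂μ - ∫ a, cX s L a ∂ν := by
  obtain ⟨a0, hAa0, hrestr, hbs⟩ := exists_a0 μ ν A hμ hν hne
  have ha00 : 0 < a0 := by linarith
  set K0 : ℕ := ⌈a0⌉₊ + 2 + ⌈(a0 + 1) / ε0⌉₊ with hK0
  have hK0a : a0 + 2 ≤ (K0 : ℝ) := by
    have := Nat.le_ceil a0
    have h2 : (0 : ℝ) ≤ (⌈(a0 + 1) / ε0⌉₊ : ℝ) := Nat.cast_nonneg _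
    rw [hK0]; push_cast; linarith
  have hK0b : (a0 + 1) / ε0 ≤ (K0 : ℝ) := by
    have := Nat.le_ceil ((a0 + 1) / ε0)
    have h2 : (0 : ℝ) ≤ (⌈a0⌉₊ : ℝ) := Nat.cast_nonneg _
    rw [hK0]; push_cast; linarith
  obtain ⟨b, hb1, hb2, hGb, hμb, hνb⟩ := hbs (a0 / (K0 + 1)) (by positivity)
  have hb0 : 0 < b := by linarith
  have hτ1 : a0 / (K0 + 1) < 1 := by
    rw [div_lt_one (by positivity)]; linarith
  set D := |G μ ν b| with hD
  have hD0 : 0 < D := abs_pos.2 hGb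
  -- the parity
  obtain ⟨k, hk1, hk2, hkG⟩ : ∃ k : ℕ, K0 ≤ k ∧ k ≤ K0 + 1 ∧ -((-1 : ℝ) ^ k) * G μ ν b = D := by
    rcases Nat.even_or_odd K0 with he | ho
    · rcases le_total 0 (G μ ν b) with h | h
      · refine ⟨K0 + 1, by omega, le_rfl, ?_⟩
        rw [(Even.add_one he).neg_one_pow, hD, abs_of_nonneg h]; ring
      · refine ⟨K0, le_rfl, by omega, ?_⟩
        rw [he.neg_one_pow, hD, abs_of_nonpos h]; ring
    · rcases le_total 0 (G μ ν b) with h | h
      · refine ⟨K0, le_rfl, by omega, ?_⟩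
        rw [ho.neg_one_pow, hD, abs_of_nonneg h]; ring
      · refine ⟨K0 + 1, by omega, le_rfl, ?_⟩
        rw [(Odd.add_one ho).neg_one_pow, hD, abs_of_nonpos h]; ring
  have hk1r : (K0 : ℝ) ≤ k := by exact_mod_cast hk1
  have hk2r : (k : ℝ) ≤ K0 + 1 := by exact_mod_cast hk2
  have hk0 : (0 : ℝ) < k := by linarith
  have hk2' : 2 ≤ k := by omega
  have hv1 : b / k < 1 := by
    rw [div_lt_one hk0]; linarith
  have hv2 : b / k < ε0 := by
    rw [div_lt_iff₀ hk0]
    have h1 : a0 + 1 ≤ k * ε0 := by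
      rw [div_le_iff₀ hε0'] at hK0b
      nlinarith
    linarith
  have hkb : (k - 1 : ℝ) * (b / k) < a0 := by
    have h1 : (k - 1 : ℝ) * b < k * a0 := by
      have h2 : a0 / (K0 + 1) * (K0 + 1) = a0 := by field_simp
      have h3 : a0 / (K0 + 1) * k ≤ a0 / (K0 + 1) * (K0 + 1) := mul_le_mul_of_nonneg_left hk2r (by positivity)
      have h4 : (k - 1 : ℝ) * b < (k - 1) * (a0 + a0 / (K0 + 1)) := by
        apply mul_lt_mul_of_pos_left hb2
        linarith
      have h5 : 0 < a0 / (K0 + 1) := by positivity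
      nlinarith
    rw [mul_div_assoc', div_lt_iff₀ hk0]
    linarith
  set σ := μ.real Set.univ + ν.real Set.univ with hσ
  have hσ0 : 0 ≤ σ := by positivity
  -- the choice of η
  have c1 : ∀ᶠ η in 𝓝[>] (0 : ℝ), D / 2 ≤ -((-1 : ℝ) ^ k) * G μ ν (b - η) := by
    have h1 := ((G_left μ ν b).comp (shift_lim b)).const_mul (-((-1 : ℝ) ^ k))
    rw [hkG] at h1
    exact (h1.eventually (eventually_gt_nhds (by linarith : D / 2 < D))).mono fun η h => h.le
  have c2 : ∀ᶠ η in 𝓝[>] (0 : ℝ), μ.real (Set.Icc (b - η) (b + η)) + ν.real (Set.Icc (b - η) (b + η)) < D / 16 := by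
    have h1 := (Icc_lim μ b).add (Icc_lim ν b)
    have h2 : μ.real {b} + ν.real {b} = 0 := by
      rw [Measure.real, Measure.real, hμb, hνb]; simp
    rw [h2] at h1
    exact h1.eventually (eventually_lt_nhds (by positivity))
  have c3 : ∀ᶠ η in 𝓝[>] (0 : ℝ), Real.log (b / (b - η)) < min (1 / 4) (D / (32 * (σ + 1))) :=
    (log_lim b hb0).eventually (eventually_lt_nhds (by positivity))
  have c4 : ∀ᶠ η in 𝓝[>] (0 : ℝ), 0 < η ∧ η < b - a0 := Ioo_mem_nhdsGT (by linarith)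
  obtain ⟨η, ⟨⟨d1, d2⟩, d3⟩, d4, d5⟩ := (((c1.and c2).and c3).and c4).exists
  have hbη : 0 < b - η := by linarith
  set ν0 := Real.log (b / (b - η)) with hν0
  have hν0pos : 0 < ν0 := by
    rw [hν0]
    apply Real.log_pos
    rw [lt_div_iff₀ hbη]
    linarith
  have hν04 : ν0 ≤ 1 / 4 := (d3.le.trans (min_le_left _ _))
  have hν0σ : ν0 * σ ≤ D / 32 := by
    have h1 : ν0 ≤ D / (32 * (σ + 1)) := d3.le.trans (min_le_right _ _)
    calc ν0 * σ ≤ D / (32 * (σ + 1)) * (σ + 1) := by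
          apply mul_le_mul h1 (by linarith) hσ0 (by positivity)
      _ = D / 32 := by field_simp
  have huv : (b / k) / ((b - η) / k) = b / (b - η) := by field_simp
  set emin := (ν0 / 4) ^ k / k.factorial with hemin
  have hemin0 : 0 < emin := by positivity
  set ε := emin * D / (8 * (σ + 1)) with hε
  have hε0 : 0 < ε := by positivity
  refine ⟨(b - η) / k, b / k, emin * D / 8, by positivity, ?_, hv1, hv2, by positivity, ?_, ?_⟩
  · apply div_lt_div_of_pos_right _ hk0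
    linarith
  · rw [huv]; exact hν04
  rw [huv, ← hν0]
  have hzlim : ∀ᶠ L : ℝ in atTop, (k : ℝ) / (ν0 / 4) ≤ L ^ ((b - η) / k) :=
    (tendsto_rpow_atTop (by positivity)).eventually_ge_atTop _
  filter_upwards [pw a0 b η ε k hk2' d4 (by linarith) ha00 hε0 hkb, hzlim, eventually_gt_atTop (1 : ℝ)] with
    L hpw hz hL s hs hsr he1 he2
  have hL0 : 0 < L := by linarith
  obtain ⟨p1, p2, p3⟩ := hpw s hs hsr (by linarith)
  have hP0 := PP_pos s hs
  have hP1 := PP_le_one s hs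
  have hek0 := ee_nonneg s k
  have hek10 := ee_nonneg s (k + 1)
  have hek1 : ee s (k + 1) ≤ 2 * ν0 * ee s k := by
    have h1 := ee_up s k
    have h2 : ee s 1 * ee s k ≤ 2 * ν0 * ee s k := mul_le_mul_of_nonneg_right he2 hek0
    nlinarith
  have hz0 : 0 < L ^ ((b - η) / k) := Real.rpow_pos_of_pos hL0 _
  have hekmin : emin ≤ ee s k := by
    have h1 := ee_ge s k _ hz0 (fun p hp => (hsr p hp).1.le) (by
      rw [div_le_iff₀ hz0]
      rw [div_le_iff₀ (by positivity)] at hz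
      nlinarith)
    refine le_trans ?_ h1
    rw [hemin]
    apply div_le_div_of_nonneg_right _ (by positivity)
    apply pow_le_pow_left₀ (by positivity)
    linarith
  have hcmp := compare μ ν a0 b η d4 (by linarith) hrestr (gg s L) (gg_meas s L hL0) (gg_int s hs L hL0 μ)
    (gg_int s hs L hL0 ν) (-((-1) ^ k * ee s k)) (ε + 2 * ee s (k + 1)) (2 * ee s k) (by positivity) (by positivity)
    p1 (fun a h1 _ => p2 a (by linarith)) p3
  rw [← hσ] at hcmp
  have q1 : -((-1) ^ k * ee s k) * G μ ν (b - η) = ee s k * (-((-1 : ℝ) ^ k) * G μ ν (b - η)) := by ring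
  rw [q1] at hcmp
  have q2 : ee s k * (D / 2) ≤ ee s k * (-((-1 : ℝ) ^ k) * G μ ν (b - η)) := mul_le_mul_of_nonneg_left d1 hek0
  have q3 : 2 * ee s k * (μ.real (Set.Icc (b - η) (b + η)) + ν.real (Set.Icc (b - η) (b + η))) ≤ 2 * ee s k * (D / 16) :=
    mul_le_mul_of_nonneg_left d2.le (by positivity)
  have q4 : 2 * ee s (k + 1) * σ ≤ ee s k * (D / 8) := by
    calc 2 * ee s (k + 1) * σ ≤ 2 * (2 * ν0 * ee s k) * σ := by gcongr
      _ = 4 * ee s k * (ν0 * σ) := by ring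
      _ ≤ 4 * ee s k * (D / 32) := mul_le_mul_of_nonneg_left hν0σ (by positivity)
      _ = _ := by ring
  have q5 : ε * σ ≤ emin * D / 8 := by
    calc ε * σ ≤ ε * (σ + 1) := mul_le_mul_of_nonneg_left (by linarith) hε0.le
      _ = emin * D / 8 := by rw [hε]; field_simp
  have q6 : emin * D ≤ ee s k * D := mul_le_mul_of_nonneg_right hekmin hD0.le
  have hfin : emin * D / 8 ≤ ∫ a, gg s L a ∂μ - ∫ a, gg s L a ∂ν := by
    refine le_trans ?_ hcmp
    have q7 : (ε + 2 * ee s (k + 1)) * σ = ε * σ + 2 * ee s (k + 1) * σ := by ring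
    rw [q7]
    linarith
  rw [cX_integral s hs L hL0 μ, cX_integral s hs L hL0 ν]
  have q8 : emin * D / 8 ≤ (∫ a, gg s L a ∂μ - ∫ a, gg s L a ∂ν) / PP s := by
    rw [le_div_iff₀ hP0]
    have : 0 < emin * D / 8 := by positivity
    nlinarith
  rw [sub_div] at q8
  linarith

end Pool.Agent.W5h22.JM
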