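import Pool.Agent.W5h22.JM.B
import Pool.Agent.W5h22.JM.F

/-! The mean value of `R_a` over the multiples of `Q`. -/

set_option autoImplicit false

open Finset Filter Topology
open Pool.Agent.H378R2 Pool.Agent.H510R2.Maier

namespace Pool.Agent.W5h22.JM

/-- `R_h(x)` for `h = (log x) ^ a` -/
noncomputable def ratio (a x : ℝ) : ℝ :=
  Real.log x / Real.log x ^ a *
    ((Nat.primeCounting ⌊x + Real.log x ^ a⌋₊ : ℝ) - Nat.primeCounting ⌊x⌋₊)

theorem pc (n Y : ℕ) : (Nat.primeCounting (n + Y) : ℝ) - Nat.primeCounting n =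
    ∑ h ∈ Icc 1 Y, if (n + h).Prime then (1 : ℝ) else 0 := by
  induction Y with
  | zero => simp
  | succ Y ih =>
    rw [Finset.sum_Icc_succ_top (by omega), ← ih]
    have h1 : Nat.primeCounting (n + (Y + 1)) = Nat.primeCounting (n + Y) + if (n + (Y + 1)).Prime then 1 else 0 := by
      unfold Nat.primeCounting Nat.primeCounting'
      rw [← add_assoc n Y 1, Nat.count_succ]
    rw [h1]
    push_cast
    ring

theorem ratio_nat (a : ℝ) (n : ℕ) : ratio a n = Real.log n / Real.log n ^ a *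
    ∑ h ∈ Icc 1 ⌊Real.log n ^ a⌋₊, if (n + h).Prime then (1 : ℝ) else 0 := by
  unfold ratio
  have h0 : 0 ≤ Real.log (n : ℝ) ^ a := Real.rpow_nonneg (Real.log_natCast_nonneg n) a
  rw [← pc, Nat.floor_natCast, add_comm (n : ℝ), Nat.floor_add_natCast h0, add_comm _ n]

theorem ratio_bd (a : ℝ) (n : ℕ) : 0 ≤ ratio a n ∧ ratio a n ≤ Real.log n := by
  rw [ratio_nat a n]
  have hl := Real.log_natCast_nonneg n
  have h0 : 0 ≤ Real.log (n : ℝ) ^ a := Real.rpow_nonneg hl a
  have hS0 : 0 ≤ ∑ h ∈ Icc 1 ⌊Real.log n ^ a⌋₊, if (n + h).Prime then (1 : ℝ) else 0 :=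
    sum_nonneg fun h _ => by split_ifs <;> norm_num
  refine ⟨by positivity, ?_⟩
  have hS : ∑ h ∈ Icc 1 ⌊Real.log n ^ a⌋₊, (if (n + h).Prime then (1 : ℝ) else 0) ≤ Real.log n ^ a := by
    calc ∑ h ∈ Icc 1 ⌊Real.log n ^ a⌋₊, (if (n + h).Prime then (1 : ℝ) else 0) ≤
        ∑ _h ∈ Icc 1 ⌊Real.log n ^ a⌋₊, (1 : ℝ) := sum_le_sum fun h _ => by split_ifs <;> norm_num
      _ = ⌊Real.log n ^ a⌋₊ := by simp
      _ ≤ _ := Nat.floor_le h0
  rcases eq_or_lt_of_le h0 with h1 | h1
  · rw [← h1, div_zero, zero_mul]; exact hl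
  · calc Real.log n / Real.log n ^ a * ∑ h ∈ Icc 1 ⌊Real.log n ^ a⌋₊, (if (n + h).Prime then (1 : ℝ) else 0)
        ≤ Real.log n / Real.log n ^ a * Real.log n ^ a := mul_le_mul_of_nonneg_left hS (by positivity)
      _ = Real.log n := by field_simp

/-- upper bound by weighted sums -/
theorem ratio_up (X a : ℝ) (n : ℕ) (hX : 3 ≤ X) (ha : 1 ≤ a) (hn : X < n) (hn3 : (n : ℝ) < 3 * X) :
    ratio a n ≤ thw n ⌊Real.log (3 * X) ^ a⌋₊ / Real.log X ^ a := by
  have hn1 : 1 ≤ n := by
    have : (0 : ℝ) < n := by linarith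
    exact_mod_cast this
  rw [ratio_nat a n]
  have hX0 : 0 < X := by linarith
  have hL : 0 < Real.log X := Real.log_pos (by linarith)
  have hl1 : Real.log X ≤ Real.log n := Real.log_le_log hX0 hn.le
  have hl2 : Real.log n ≤ Real.log (3 * X) := Real.log_le_log (by linarith) hn3.le
  have hl0 : 0 < Real.log n := lt_of_lt_of_le hL hl1
  have h1 : Real.log n / Real.log n ^ a ≤ Real.log X / Real.log X ^ a := by
    have e1 : ∀ t : ℝ, 0 < t → t / t ^ a = t ^ (1 - a) := fun t ht => by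
      rw [Real.rpow_sub ht, Real.rpow_one]
    rw [e1 _ hl0, e1 _ hL]
    exact Real.rpow_le_rpow_of_nonpos hL hl1 (by linarith)
  have h2 : ∑ h ∈ Icc 1 ⌊Real.log n ^ a⌋₊, (if (n + h).Prime then (1 : ℝ) else 0) ≤
      thw n ⌊Real.log (3 * X) ^ a⌋₊ / Real.log X := by
    unfold thw
    rw [sum_div]
    calc ∑ h ∈ Icc 1 ⌊Real.log n ^ a⌋₊, (if (n + h).Prime then (1 : ℝ) else 0) ≤
        ∑ h ∈ Icc 1 ⌊Real.log n ^ a⌋₊, th (n + h) / Real.log X := by
          refine sum_le_sum fun h _ => ?_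
          unfold th
          split_ifs
          · rw [le_div_iff₀ hL, one_mul]
            refine hl1.trans (Real.log_le_log (by linarith) ?_)
            push_cast
            linarith [(Nat.cast_nonneg h : (0 : ℝ) ≤ h)]
          · simp
      _ ≤ _ := by
          apply sum_le_sum_of_subset_of_nonneg
          · intro h hh
            rw [mem_Icc] at hh ⊢
            refine ⟨hh.1, hh.2.trans (Nat.floor_le_floor ?_)⟩
            exact Real.rpow_le_rpow hl0.le hl2 (by linarith)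
          · intro h _ _
            exact div_nonneg (th_nonneg _) hL.le
  have h3 : 0 ≤ Real.log X / Real.log X ^ a := by positivity
  calc _ ≤ Real.log X / Real.log X ^ a * (thw n ⌊Real.log (3 * X) ^ a⌋₊ / Real.log X) := by
        apply mul_le_mul h1 h2 _ h3
        exact sum_nonneg fun h _ => by split_ifs <;> norm_num
    _ = _ := by field_simp

/-- lower bound by weighted sums -/
theorem ratio_low (X a : ℝ) (n : ℕ) (hX : 3 ≤ X) (ha : 1 ≤ a) (hn : X < n) (hn3 : (n : ℝ) < 3 * X)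
    (hLa : Real.log X ^ a ≤ 3 * X) :
    Real.log (3 * X) / Real.log (3 * X) ^ a / (Real.log (3 * X) + 1) * thw n ⌊Real.log X ^ a⌋₊ ≤ ratio a n := by
  have hn1 : 1 ≤ n := by
    have : (0 : ℝ) < n := by linarith
    exact_mod_cast this
  rw [ratio_nat a n]
  have hX0 : 0 < X := by linarith
  have hL : 0 < Real.log X := Real.log_pos (by linarith)
  have hl1 : Real.log X ≤ Real.log n := Real.log_le_log hX0 hn.le
  have hl2 : Real.log n ≤ Real.log (3 * X) := Real.log_le_log (by linarith) hn3.le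
  have hl0 : 0 < Real.log n := lt_of_lt_of_le hL hl1
  have hL3 : 0 < Real.log (3 * X) := lt_of_lt_of_le hl0 hl2
  have h1 : Real.log (3 * X) / Real.log (3 * X) ^ a ≤ Real.log n / Real.log n ^ a := by
    have e1 : ∀ t : ℝ, 0 < t → t / t ^ a = t ^ (1 - a) := fun t ht => by
      rw [Real.rpow_sub ht, Real.rpow_one]
    rw [e1 _ hl0, e1 _ hL3]
    exact Real.rpow_le_rpow_of_nonpos hl0 hl2 (by linarith)
  have h2 : thw n ⌊Real.log X ^ a⌋₊ / (Real.log (3 * X) + 1) ≤
      ∑ h ∈ Icc 1 ⌊Real.log n ^ a⌋₊, (if (n + h).Prime then (1 : ℝ) else 0) := by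
    unfold thw
    rw [sum_div]
    calc ∑ h ∈ Icc 1 ⌊Real.log X ^ a⌋₊, th (n + h) / (Real.log (3 * X) + 1) ≤
        ∑ h ∈ Icc 1 ⌊Real.log X ^ a⌋₊, (if (n + h).Prime then (1 : ℝ) else 0) := by
          refine sum_le_sum fun h hh => ?_
          rw [mem_Icc] at hh
          unfold th
          split_ifs
          · rw [div_le_one (by linarith)]
            have e1 : ((n + h : ℕ) : ℝ) ≤ 3 * X * Real.exp 1 := by
              have e2 : (h : ℝ) ≤ Real.log X ^ a := le_trans (by exact_mod_cast hh.2) (Nat.floor_le (by positivity))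
              have e3 := Real.add_one_le_exp 1
              push_cast
              nlinarith
            have e4 := Real.log_le_log (by have : (0 : ℝ) < n := by linarith
                                           push_cast
                                           positivity) e1
            rw [Real.log_mul (by positivity) (Real.exp_pos 1).ne', Real.log_exp] at e4
            exact e4
          · simp
      _ ≤ _ := by
          apply sum_le_sum_of_subset_of_nonneg
          · intro h hh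
            rw [mem_Icc] at hh ⊢
            refine ⟨hh.1, hh.2.trans (Nat.floor_le_floor ?_)⟩
            exact Real.rpow_le_rpow hL.le hl1 (by linarith)
          · intro h _ _
            split_ifs <;> norm_num
  have h3 : 0 ≤ Real.log (n : ℝ) / Real.log n ^ a := by positivity
  calc _ = Real.log (3 * X) / Real.log (3 * X) ^ a * (thw n ⌊Real.log X ^ a⌋₊ / (Real.log (3 * X) + 1)) := by ring
    _ ≤ _ := by
        apply mul_le_mul h1 h2 _ h3
        exact div_nonneg (thw_nonneg _ _) (by linarith)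

theorem EX_mono (X : ℝ) (hX : 0 < X) (Q : ℕ) (hN : 0 < NQ X Q) (f g : ℕ → ℝ)
    (h : ∀ n : ℕ, X < n → (n : ℝ) < 3 * X → f n ≤ g n) : EX X Q f ≤ EX X Q g := by
  unfold EX
  apply div_le_div_of_nonneg_right _ hN.le
  refine sum_le_sum fun n _ => ?_
  by_cases hn : X < n ∧ (n : ℝ) < 3 * X
  · exact mul_le_mul_of_nonneg_left (h n hn.1 hn.2) (nu_nonneg _ _ _ _)
  · rw [nu_eq_zero hX hn, zero_mul, zero_mul]

theorem EX_mul (X : ℝ) (Q : ℕ) (c : ℝ) (f : ℕ → ℝ) : EX X Q (fun n => c * f n) = c * EX X Q f := by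
  unfold EX
  rw [← mul_div_assoc, mul_sum]
  congr 1
  exact sum_congr rfl fun n _ => by ring

theorem EX_thw (X : ℝ) (Q Y : ℕ) : EX X Q (fun n => thw n Y) = ∑ h ∈ Icc 1 Y, EX X Q (fun n => th (n + h)) := by
  unfold EX thw
  rw [← sum_div]
  congr 1
  rw [sum_comm]
  exact sum_congr rfl fun n _ => by rw [mul_sum]

theorem cnt_cop (s : Finset ℕ) (hs : ∀ p ∈ s, p.Prime) (Y : ℕ) (c : ℝ) :
    ∑ h ∈ Icc 1 Y, (if h.Coprime (∏ p ∈ s, p) then c else 0) = cnt s Y * c := by
  rw [← sum_filter, sum_const, nsmul_eq_mul]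
  congr 2
  unfold cnt
  congr 1
  ext h
  rw [mem_filter, mem_filter, mem_Icc, mem_Ioc, cop_iff s hs]
  constructor
  · rintro ⟨h1, h2⟩
    exact ⟨by omega, h2⟩
  · rintro ⟨h1, h2⟩
    exact ⟨by omega, h2⟩

theorem cnt_add (s : Finset ℕ) (Y Z : ℕ) (h : Y ≤ Z) : (cnt s Z : ℝ) ≤ cnt s Y + (Z - Y) := by
  have h1 : cnt s Z ≤ cnt s Y + (Z - Y) := by
    unfold cnt
    have e1 : Ioc 0 Z = Ioc 0 Y ∪ Ioc Y Z := (Ioc_union_Ioc_eq_Ioc (Nat.zero_le _) h).symm
    rw [e1, filter_union]
    refine (card_union_le _ _).trans ?_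
    apply Nat.add_le_add_left
    refine (card_filter_le _ _).trans ?_
    simp
  have h2 : ((cnt s Z : ℕ) : ℝ) ≤ ((cnt s Y + (Z - Y) : ℕ) : ℝ) := by exact_mod_cast h1
  push_cast [Nat.cast_sub h] at h2
  linarith

end Pool.Agent.W5h22.JM
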