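import Pool.Agent.W5h22.JM.H

/-! The mean value of `R_a`, and the reciprocals of the primes in use. -/

set_option autoImplicit false

open Finset Filter Topology
open Pool.Agent.H378R2 Pool.Agent.H510R2.Maier

namespace Pool.Agent.W5h22.JM

theorem log3_lim : Tendsto (fun X : ℝ => Real.log (3 * X) / Real.log X) atTop (𝓝 1) := by
  have h1 : Tendsto (fun X : ℝ => Real.log 3 / Real.log X + 1) atTop (𝓝 (0 + 1)) :=
    (tendsto_const_nhds.div_atTop Real.tendsto_log_atTop).add_const 1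
  rw [zero_add] at h1
  refine h1.congr' ?_
  filter_upwards [eventually_gt_atTop (1 : ℝ)] with X hX
  have : 0 < Real.log X := Real.log_pos hX
  rw [Real.log_mul (by norm_num) (by linarith)]
  field_simp

theorem log3_lim2 : Tendsto (fun X : ℝ => Real.log (3 * X) / (Real.log (3 * X) + 1)) atTop (𝓝 1) := by
  have h0 : Tendsto (fun X : ℝ => Real.log (3 * X)) atTop atTop :=
    Real.tendsto_log_atTop.comp (tendsto_id.const_mul_atTop (by norm_num : (0 : ℝ) < 3))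
  have h1 : Tendsto (fun X : ℝ => 1 - 1 / (Real.log (3 * X) + 1)) atTop (𝓝 (1 - 0)) :=
    tendsto_const_nhds.sub (tendsto_const_nhds.div_atTop (tendsto_atTop_add_const_right _ _ h0))
  rw [sub_zero] at h1
  refine h1.congr' ?_
  filter_upwards [h0.eventually_gt_atTop 0] with X hX
  field_simp
  ring

theorem cX_le (s : Finset ℕ) (L a : ℝ) (hL : 0 < L) (hP : 1 / 2 ≤ PP s) : cX s L a ≤ 2 ∧ 0 ≤ cX s L a := by
  have hy : 0 < L ^ a := Real.rpow_pos_of_pos hL a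
  have h1 := cnt_floor_le s (L ^ a) hy.le
  have hP0 : 0 < PP s := by linarith
  unfold cX
  constructor
  · rw [div_le_iff₀ (by positivity)]
    nlinarith
  · positivity

/-- the mean value of `R_a` -/
theorem mean_ratio (B : ℕ) (ε : ℝ) (hε : 0 < ε) : ∀ᶠ X : ℝ in atTop, ∃ (ps : ℕ) (S : Finset ℕ), GoodS X S ∧
    ∀ s : Finset ℕ, s ⊆ PW X S ps → 1 / 2 ≤ PP s → 0 < NQ X (∏ p ∈ s, p) ∧
      X / (40 * ((∏ p ∈ s, p : ℕ) : ℝ)) ≤ NQ X (∏ p ∈ s, p) ∧
      ∀ a : ℝ, 1 ≤ a → a ≤ B →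
        |EX X (∏ p ∈ s, p) (fun n => ratio a n) - cX s (Real.log X) a| ≤ ε := by
  have ev1 := mean_th B (ε / 8) (by positivity)
  have ev2 : ∀ᶠ X : ℝ in atTop, 2 * ((Real.log (3 * X) / Real.log X) ^ B - 1 + 1 / Real.log X) +
      ε / 8 * (Real.log (3 * X) / Real.log X) ^ B < ε := by
    have h1 : Tendsto (fun X : ℝ => 2 * ((Real.log (3 * X) / Real.log X) ^ B - 1 + 1 / Real.log X) +
        ε / 8 * (Real.log (3 * X) / Real.log X) ^ B) atTop (𝓝 (2 * (1 ^ B - 1 + 0) + ε / 8 * 1 ^ B)) :=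
      ((((log3_lim.pow B).sub_const 1).add (tendsto_const_nhds.div_atTop Real.tendsto_log_atTop)).const_mul 2).add
        ((log3_lim.pow B).const_mul _)
    apply h1.eventually_lt_const
    rw [one_pow]; linarith
  have ev3 : ∀ᶠ X : ℝ in atTop, 1 - ε / 4 < ((Real.log (3 * X) / Real.log X) ^ B)⁻¹ * (Real.log (3 * X) / (Real.log (3 * X) + 1)) := by
    have h1 := ((log3_lim.pow B).inv₀ (by rw [one_pow]; exact one_ne_zero)).mul log3_lim2
    apply h1.eventually_const_lt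
    rw [one_pow, inv_one]; linarith
  have ev4 : ∀ᶠ X : ℝ in atTop, Real.log (3 * X) / Real.log X < 2 := log3_lim.eventually_lt_const (by norm_num)
  have ev5 : ∀ᶠ X : ℝ in atTop, (Real.log X) ^ B ≤ 3 * X := by
    have h1 := (Real.isLittleO_pow_log_id_atTop (n := B)).bound (show (0 : ℝ) < 3 by norm_num)
    filter_upwards [h1, eventually_ge_atTop (1 : ℝ)] with X h2 h3
    rw [Real.norm_of_nonneg (pow_nonneg (Real.log_nonneg h3) B), id, Real.norm_of_nonneg (by linarith)] at h2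
    linarith
  filter_upwards [ev1, ev2, ev3, ev4, ev5, eventually_ge_atTop (3 : ℝ), Real.tendsto_log_atTop.eventually_ge_atTop (1 : ℝ)] with
    X h1 h2 h3 h4 h5 h6 h7
  obtain ⟨ps, S, hS, hmain⟩ := h1
  refine ⟨ps, S, hS, fun s hs hP => ?_⟩
  obtain ⟨hN, hN40, hth⟩ := hmain s hs hP
  refine ⟨hN, hN40, fun a ha haB => ?_⟩
  have hsp : ∀ p ∈ s, p.Prime := fun p hp => (mem_PW.1 (hs hp)).2.1
  have hX0 : 0 < X := by linarith
  set L := Real.log X with hL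
  set L3 := Real.log (3 * X) with hL3
  set Q := ∏ p ∈ s, p with hQ
  have hL0 : 0 < L := by linarith
  have hLL3 : L ≤ L3 := Real.log_le_log hX0 (by linarith)
  have hL30 : 0 < L3 := by linarith
  have hL32 : L3 ≤ 2 * L := by
    rw [div_lt_iff₀ hL0] at h4; exact h4.le
  have hP0 : 0 < PP s := by linarith
  have hPi : (PP s)⁻¹ ≤ 2 := by
    calc (PP s)⁻¹ ≤ (1 / 2 : ℝ)⁻¹ := inv_anti₀ (by norm_num) hP
      _ = 2 := by norm_num
  have hPi0 : 0 < (PP s)⁻¹ := by positivity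
  -- means of `thw`
  have hthw : ∀ y : ℝ, 0 ≤ y → y ≤ (2 * L) ^ B →
      |EX X Q (fun n => thw n ⌊y⌋₊) - cnt s ⌊y⌋₊ * (PP s)⁻¹| ≤ ε / 8 * y := by
    intro y hy hyB
    rw [EX_thw, ← cnt_cop s hsp, ← sum_sub_distrib]
    refine (abs_sum_le_sum_abs _ _).trans ?_
    calc _ ≤ ∑ _h ∈ Icc 1 ⌊y⌋₊, ε / 8 := by
          refine sum_le_sum fun h hh => ?_
          rw [mem_Icc] at hh
          exact hth h ((le_trans (by exact_mod_cast hh.2) (Nat.floor_le hy)).trans hyB)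
      _ = ⌊y⌋₊ * (ε / 8) := by rw [sum_const, Nat.card_Icc, Nat.add_sub_cancel, nsmul_eq_mul]
      _ ≤ y * (ε / 8) := mul_le_mul_of_nonneg_right (Nat.floor_le hy) (by positivity)
      _ = _ := by ring
  have hpow : ∀ t : ℝ, 1 ≤ t → t ≤ 2 * L → t ^ a ≤ (2 * L) ^ B := by
    intro t ht1 ht
    calc t ^ a ≤ (2 * L) ^ a := Real.rpow_le_rpow (by linarith) ht (by linarith)
      _ ≤ (2 * L) ^ (B : ℝ) := Real.rpow_le_rpow_of_exponent_le (by linarith) haB
      _ = _ := Real.rpow_natCast _ _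
  have hy : 0 < L ^ a := Real.rpow_pos_of_pos hL0 a
  have hy3 : 0 < L3 ^ a := Real.rpow_pos_of_pos hL30 a
  have hyy : L ^ a ≤ L3 ^ a := Real.rpow_le_rpow hL0.le hLL3 (by linarith)
  have hLa : L ≤ L ^ a := by
    calc L = L ^ (1 : ℝ) := (Real.rpow_one L).symm
      _ ≤ _ := Real.rpow_le_rpow_of_exponent_le h7 ha
  have hρ : L3 ^ a / L ^ a ≤ (L3 / L) ^ B := by
    rw [← Real.div_rpow hL30.le hL0.le, ← Real.rpow_natCast]
    exact Real.rpow_le_rpow_of_exponent_le (by rw [le_div_iff₀ hL0]; linarith) haB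
  have hρ1 : 1 ≤ L3 ^ a / L ^ a := by rw [le_div_iff₀ hy]; linarith
  obtain ⟨hc2, hc0⟩ := cX_le s L a hL0 hP
  have hcX : cX s L a = cnt s ⌊L ^ a⌋₊ * (PP s)⁻¹ / L ^ a := by
    unfold cX; field_simp
  rw [abs_le]
  constructor
  · -- lower bound
    have e1 := EX_mono X hX0 Q hN (fun n => L3 / L3 ^ a / (L3 + 1) * thw n ⌊L ^ a⌋₊) (fun n => ratio a n)
      (fun n hn hn3 => ratio_low X a n h6 ha hn hn3 (by
        calc L ^ a ≤ L ^ (B : ℝ) := Real.rpow_le_rpow_of_exponent_le h7 haB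
          _ = L ^ B := Real.rpow_natCast _ _
          _ ≤ _ := h5))
    rw [EX_mul] at e1
    have e2 := (abs_le.1 (hthw (L ^ a) hy.le (hpow L h7 (by linarith)))).1
    have hθ0 : 0 ≤ L3 / L3 ^ a / (L3 + 1) := by positivity
    have e3 : L3 / L3 ^ a / (L3 + 1) * (L ^ a * (cX s L a - ε / 8)) ≤
        L3 / L3 ^ a / (L3 + 1) * EX X Q (fun n => thw n ⌊L ^ a⌋₊) := by
      apply mul_le_mul_of_nonneg_left _ hθ0
      rw [hcX]
      have : L ^ a * (cnt s ⌊L ^ a⌋₊ * (PP s)⁻¹ / L ^ a - ε / 8) = cnt s ⌊L ^ a⌋₊ * (PP s)⁻¹ - ε / 8 * L ^ a := by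
        field_simp
      rw [this]
      linarith
    set θ := L3 / L3 ^ a / (L3 + 1) * L ^ a with hθ
    have e4 : L3 / L3 ^ a / (L3 + 1) * (L ^ a * (cX s L a - ε / 8)) = θ * (cX s L a - ε / 8) := by rw [hθ]; ring
    have hθeq : θ = (L3 ^ a / L ^ a)⁻¹ * (L3 / (L3 + 1)) := by
      rw [hθ]; field_simp
    have hθ1 : θ ≤ 1 := by
      rw [hθeq]
      have q1 : (L3 ^ a / L ^ a)⁻¹ ≤ 1 := inv_le_one_of_one_le₀ hρ1
      have q2 : L3 / (L3 + 1) ≤ 1 := by rw [div_le_one (by linarith)]; linarith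
      have q3 : 0 ≤ (L3 ^ a / L ^ a)⁻¹ := by positivity
      have q4 : 0 ≤ L3 / (L3 + 1) := by positivity
      nlinarith
    have hθ2 : 1 - ε / 4 < θ := by
      rw [hθeq]
      refine lt_of_lt_of_le h3 ?_
      apply mul_le_mul_of_nonneg_right _ (by positivity)
      exact inv_anti₀ (by positivity) hρ
    have hθ3 : 0 ≤ θ := by positivity
    rw [e4] at e3
    have e5 : θ * (cX s L a - ε / 8) = cX s L a - (1 - θ) * cX s L a - θ * (ε / 8) := by ring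
    have e6 : (1 - θ) * cX s L a ≤ ε / 4 * 2 := mul_le_mul (by linarith) hc2 hc0 (by positivity)
    have e7 : θ * (ε / 8) ≤ 1 * (ε / 8) := mul_le_mul_of_nonneg_right hθ1 (by positivity)
    linarith
  · -- upper bound
    have e1 := EX_mono X hX0 Q hN (fun n => ratio a n) (fun n => (L ^ a)⁻¹ * thw n ⌊L3 ^ a⌋₊)
      (fun n hn hn3 => by
        have := ratio_up X a n h6 ha hn hn3
        rw [div_eq_inv_mul] at this
        exact this)
    rw [EX_mul] at e1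
    have e2 := (abs_le.1 (hthw (L3 ^ a) hy3.le (hpow L3 (by linarith) hL32))).2
    have e3 := cnt_add s ⌊L ^ a⌋₊ ⌊L3 ^ a⌋₊ (Nat.floor_le_floor hyy)
    have e4 : (⌊L3 ^ a⌋₊ : ℝ) ≤ L3 ^ a := Nat.floor_le hy3.le
    have e5 : L ^ a < ⌊L ^ a⌋₊ + 1 := Nat.lt_floor_add_one _
    have e6 : EX X Q (fun n => thw n ⌊L3 ^ a⌋₊) ≤ cnt s ⌊L ^ a⌋₊ * (PP s)⁻¹ + (L3 ^ a - L ^ a + 1) * 2 + ε / 8 * L3 ^ a := by
      have q1 : (cnt s ⌊L3 ^ a⌋₊ : ℝ) * (PP s)⁻¹ ≤ (cnt s ⌊L ^ a⌋₊ + (L3 ^ a - L ^ a + 1)) * (PP s)⁻¹ := by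
        apply mul_le_mul_of_nonneg_right _ hPi0.le
        linarith
      have q2 : (L3 ^ a - L ^ a + 1) * (PP s)⁻¹ ≤ (L3 ^ a - L ^ a + 1) * 2 :=
        mul_le_mul_of_nonneg_left hPi (by linarith)
      rw [add_mul] at q1
      linarith
    have e7 : (L ^ a)⁻¹ * EX X Q (fun n => thw n ⌊L3 ^ a⌋₊) ≤
        (L ^ a)⁻¹ * (cnt s ⌊L ^ a⌋₊ * (PP s)⁻¹ + (L3 ^ a - L ^ a + 1) * 2 + ε / 8 * L3 ^ a) :=
      mul_le_mul_of_nonneg_left e6 (by positivity)
    have e8 : (L ^ a)⁻¹ * (cnt s ⌊L ^ a⌋₊ * (PP s)⁻¹ + (L3 ^ a - L ^ a + 1) * 2 + ε / 8 * L3 ^ a) =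
        cX s L a + 2 * (L3 ^ a / L ^ a - 1 + 1 / L ^ a) + ε / 8 * (L3 ^ a / L ^ a) := by
      rw [hcX]; field_simp
    have e9 : 1 / L ^ a ≤ 1 / L := one_div_le_one_div_of_le hL0 hLa
    have e10 : ε / 8 * (L3 ^ a / L ^ a) ≤ ε / 8 * (L3 / L) ^ B := mul_le_mul_of_nonneg_left hρ (by positivity)
    linarith

/-- the primes of `(L ^ u, L ^ v]` in the modulus -/
noncomputable def sX (X : ℝ) (ps : ℕ) (S : Finset ℕ) (u v : ℝ) : Finset ℕ :=
  (PW X S ps).filter (fun p => (Real.log X) ^ u < p ∧ (p : ℝ) ≤ (Real.log X) ^ v)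

theorem mertens_sX (u v η : ℝ) (hu : 0 < u) (huv : u < v) (hv : v < 1) (hη : 0 < η) :
    ∀ᶠ X : ℝ in atTop, ∀ (ps : ℕ) (S : Finset ℕ), GoodS X S → |ee (sX X ps S u v) 1 - Real.log (v / u)| ≤ η := by
  have hpowt : ∀ w : ℝ, 0 < w → Tendsto (fun L : ℝ => L ^ w) atTop atTop := fun w hw => tendsto_rpow_atTop hw
  have hv0 : 0 < v := by linarith
  have hR := R1_diff (hpowt v hv0) (hpowt u hu) (ρ := v / u) (by positivity) (by
    refine tendsto_const_nhds.congr' ?_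
    filter_upwards [eventually_gt_atTop (1 : ℝ)] with L hL
    have : 0 < Real.log L := Real.log_pos hL
    rw [Real.log_rpow (by linarith), Real.log_rpow (by linarith)]
    field_simp)
  have ev1 : ∀ᶠ L : ℝ in atTop, |R1 ⌊L ^ v⌋₊ - R1 ⌊L ^ u⌋₊ - Real.log (v / u)| < η / 3 := by
    filter_upwards [(Metric.tendsto_nhds.1 hR) (η / 3) (by positivity)] with L hL
    rw [Real.dist_eq] at hL
    exact hL
  have ev2 : ∀ᶠ L : ℝ in atTop, 6 / (Real.log L) ^ 2 < η / 3 := by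
    have h1 : Tendsto (fun L : ℝ => 6 / (Real.log L) ^ 2) atTop (𝓝 0) :=
      tendsto_const_nhds.div_atTop ((tendsto_pow_atTop (by norm_num)).comp Real.tendsto_log_atTop)
    exact h1.eventually_lt_const (by positivity)
  have ev3 : ∀ᶠ L : ℝ in atTop, (L ^ u)⁻¹ < η / 3 :=
    (tendsto_inv_atTop_zero.comp (hpowt u hu)).eventually_lt_const (by positivity)
  have ev4 : ∀ᶠ L : ℝ in atTop, L ^ v ≤ L / 1000 := by
    filter_upwards [(hpowt (1 - v) (by linarith)).eventually_ge_atTop 1000, eventually_gt_atTop (0 : ℝ)] with L h1 h2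
    have h3 : L = L ^ (1 - v) * L ^ v := by
      rw [← Real.rpow_add h2]; simp
    have h4 : 0 < L ^ v := Real.rpow_pos_of_pos h2 v
    rw [le_div_iff₀ (by norm_num)]
    nth_rewrite 2 [h3]
    nlinarith
  have hlog := Real.tendsto_log_atTop
  filter_upwards [hlog.eventually ev1, hlog.eventually ev2, hlog.eventually ev3, hlog.eventually ev4,
    hlog.eventually_gt_atTop (1 : ℝ)] with X h1 h2 h3 h4 h5 ps S hS
  classical
  set L := Real.log X with hL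
  have hLu : 0 < L ^ u := Real.rpow_pos_of_pos (by linarith) u
  have hLv : 0 < L ^ v := Real.rpow_pos_of_pos (by linarith) v
  have hLuv : L ^ u ≤ L ^ v := Real.rpow_le_rpow_of_exponent_le h5.le huv.le
  set U := (Icc 1 ⌊L ^ u⌋₊).filter Nat.Prime with hU
  set V := (Icc 1 ⌊L ^ v⌋₊).filter Nat.Prime with hV
  set T := V \ U with hT
  have hUV : U ⊆ V := by
    intro p hp
    rw [hU, mem_filter, mem_Icc] at hp
    rw [hV, mem_filter, mem_Icc]
    exact ⟨⟨hp.1.1, hp.1.2.trans (Nat.floor_le_floor hLuv)⟩, hp.2⟩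
  have hTsum : ∑ p ∈ T, (p : ℝ)⁻¹ = R1 ⌊L ^ v⌋₊ - R1 ⌊L ^ u⌋₊ := by
    have := sum_sdiff (f := fun p : ℕ => (p : ℝ)⁻¹) hUV
    unfold R1
    simp only [one_div]
    linarith
  have hTmem : ∀ p, p ∈ T ↔ p.Prime ∧ L ^ u < p ∧ (p : ℝ) ≤ L ^ v := by
    intro p
    rw [hT, Finset.mem_sdiff, hU, hV, mem_filter, mem_filter, mem_Icc, mem_Icc]
    constructor
    · rintro ⟨⟨⟨a1, a2⟩, a3⟩, a4⟩
      refine ⟨a3, ?_, (Nat.le_floor_iff hLv.le).1 a2⟩
      by_contra h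
      exact a4 ⟨⟨a1, Nat.le_floor (not_lt.1 h)⟩, a3⟩
    · rintro ⟨a1, a2, a3⟩
      refine ⟨⟨⟨a1.one_lt.le, Nat.le_floor a3⟩, a1⟩, ?_⟩
      rintro ⟨⟨_, b2⟩, _⟩
      have := (Nat.le_floor_iff hLu.le).1 b2
      linarith
  set s := sX X ps S u v with hs
  have hsT : s ⊆ T := by
    intro p hp
    rw [hs, sX, mem_filter, mem_PW] at hp
    rw [hTmem]
    exact ⟨hp.1.2.1, hp.2.1, hp.2.2⟩
  have hTs : T \ s ⊆ S ∪ T.filter (fun p => p = ps) := by
    intro p hp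
    rw [Finset.mem_sdiff] at hp
    rw [mem_union, mem_filter]
    by_cases hpS : p ∈ S
    · exact Or.inl hpS
    right
    refine ⟨hp.1, ?_⟩
    by_contra hne
    apply hp.2
    have h6 := (hTmem p).1 hp.1
    rw [hs, sX, mem_filter, mem_PW]
    refine ⟨⟨?_, h6.1, hpS, hne⟩, h6.2⟩
    unfold yy
    exact Nat.le_floor (h6.2.2.trans h4)
  have hsum := sum_sdiff (f := fun p : ℕ => (p : ℝ)⁻¹) hsT
  have hnn : ∀ p : ℕ, 0 ≤ (p : ℝ)⁻¹ := fun p => inv_nonneg.2 (Nat.cast_nonneg p)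
  have hdiff : ∑ p ∈ T \ s, (p : ℝ)⁻¹ ≤ 6 / (Real.log L) ^ 2 + (L ^ u)⁻¹ := by
    calc ∑ p ∈ T \ s, (p : ℝ)⁻¹ ≤ ∑ p ∈ S ∪ T.filter (fun p => p = ps), (p : ℝ)⁻¹ :=
          sum_le_sum_of_subset_of_nonneg hTs fun p _ _ => hnn p
      _ ≤ ∑ p ∈ S, (p : ℝ)⁻¹ + ∑ p ∈ T.filter (fun p => p = ps), (p : ℝ)⁻¹ := by
          rw [← sum_union_inter]
          have : 0 ≤ ∑ p ∈ S ∩ T.filter (fun p => p = ps), (p : ℝ)⁻¹ := sum_nonneg fun p _ => hnn p
          linarith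
      _ ≤ _ := by
          apply add_le_add
          · have := hS.2
            simp only [one_div] at this
            exact this
          · have h6 : ∑ p ∈ T.filter (fun p => p = ps), (p : ℝ)⁻¹ ≤ ∑ p ∈ T.filter (fun p => p = ps), (L ^ u)⁻¹ := by
              refine sum_le_sum fun p hp => ?_
              rw [mem_filter] at hp
              exact inv_anti₀ hLu ((hTmem p).1 hp.1).2.1.le
            refine h6.trans ?_
            rw [sum_const, nsmul_eq_mul]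
            have h7 : (T.filter (fun p => p = ps)).card ≤ 1 := by
              apply Finset.card_le_one.2
              intro a ha b hb
              rw [(mem_filter.1 ha).2, (mem_filter.1 hb).2]
            have h8 : ((T.filter (fun p => p = ps)).card : ℝ) ≤ 1 := by exact_mod_cast h7
            have h9 : 0 < (L ^ u)⁻¹ := by positivity
            nlinarith
  have hdiff0 : 0 ≤ ∑ p ∈ T \ s, (p : ℝ)⁻¹ := sum_nonneg fun p _ => hnn p
  rw [ee_one]
  rw [hTsum] at hsum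
  rw [abs_lt] at h1
  rw [abs_le]
  constructor
  · linarith [h1.1]
  · linarith [h1.2]

end Pool.Agent.W5h22.JM
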